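import Mathlib
set_option linter.unusedVariables false
set_option linter.unusedSectionVars false
open Set Filter Topology
open scoped ENNReal

namespace H312Gat

/-- the real Banach space `ℓ_p` -/
abbrev LP (p : ℝ≥0∞) : Type := lp (fun _ : ℕ => ℝ) p

variable {p : ℝ≥0∞} [Fact (1 ≤ p)] [hpt : Fact (p ≠ ⊤)]

theorem one_le_pr (h1 : 1 ≤ p) (h2 : p ≠ ⊤) : 1 ≤ p.toReal := by
  have := ENNReal.toReal_mono h2 h1
  simpa using this

theorem pr1 : 1 ≤ p.toReal := one_le_pr Fact.out Fact.out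

theorem pr_pos : 0 < p.toReal := lt_of_lt_of_le one_pos pr1

/-- `‖x‖^p` -/
noncomputable def nu (x : LP p) : ℝ := ‖x‖ ^ p.toReal

theorem nu_def (x : LP p) : nu x = ‖x‖ ^ p.toReal := rfl

theorem nu_sum (x : LP p) : nu x = ∑' i, |x i| ^ p.toReal := by
  have h := lp.norm_rpow_eq_tsum (p := p) pr_pos x
  simp only [Real.norm_eq_abs] at h
  exact h

theorem nu_summ (x : LP p) : Summable (fun i => |x i| ^ p.toReal) := by
  have h := (lp.memℓp x).summable (pr_pos (p := p))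
  simp only [Real.norm_eq_abs] at h
  exact h

theorem nu_nonneg (x : LP p) : 0 ≤ nu x := Real.rpow_nonneg (norm_nonneg _) _

theorem nu_zero : nu (0 : LP p) = 0 := by
  rw [nu_def, norm_zero, Real.zero_rpow pr_pos.ne']

theorem nu_cont : Continuous (nu : LP p → ℝ) :=
  continuous_norm.rpow_const (fun _ => Or.inr pr_pos.le)

theorem nu_le_iff {x : LP p} {r : ℝ} (hr : 0 ≤ r) : nu x ≤ r ^ p.toReal ↔ ‖x‖ ≤ r :=
  Real.rpow_le_rpow_iff (norm_nonneg _) hr pr_pos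

theorem le_nu_iff {x : LP p} {r : ℝ} (hr : 0 ≤ r) : r ^ p.toReal ≤ nu x ↔ r ≤ ‖x‖ :=
  Real.rpow_le_rpow_iff hr (norm_nonneg _) pr_pos

theorem nu_smul (t : ℝ) (x : LP p) : nu (t • x) = |t| ^ p.toReal * nu x := by
  rw [nu_def, nu_def, norm_smul, Real.norm_eq_abs, Real.mul_rpow (abs_nonneg _) (norm_nonneg _)]

theorem nu_pos {x : LP p} (h : 0 < ‖x‖) : 0 < nu x := Real.rpow_pos_of_pos h _

/-- closed tail -/
def CT (N : ℕ) : Set (LP p) := {c | ∀ i < N, c i = 0}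
/-- finitely supported tail -/
def Tl (N : ℕ) : Set (LP p) := {c | (∀ i < N, c i = 0) ∧ ∃ M, ∀ i, M ≤ i → c i = 0}
/-- supported below `M` -/
def Blw (M : ℕ) : Set (LP p) := {c | ∀ i, M ≤ i → c i = 0}

theorem Tl_sub_CT (N : ℕ) : (Tl N : Set (LP p)) ⊆ CT N := fun c hc => hc.1

theorem Tl_Blw {N : ℕ} {c : LP p} (hc : c ∈ Tl N) : ∃ M, N ≤ M ∧ c ∈ Blw M := by
  obtain ⟨h1, M, hM⟩ := hc
  exact ⟨max N M, le_max_left _ _, fun i hi => hM i (le_trans (le_max_right _ _) hi)⟩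

theorem nu_add {M : ℕ} {b w : LP p} (hb : b ∈ Blw M) (hw : w ∈ CT M) :
    nu (b + w) = nu b + nu w := by
  rw [nu_sum, nu_sum, nu_sum, ← (nu_summ b).tsum_add (nu_summ w)]
  congr 1
  ext i
  rw [lp.coeFn_add, Pi.add_apply]
  rcases lt_or_ge i M with h | h
  · rw [hw i h]; simp [Real.zero_rpow (pr_pos (p := p)).ne']
  · rw [hb i h]; simp [Real.zero_rpow (pr_pos (p := p)).ne']

theorem p_ne_zero : p ≠ 0 := by
  intro h
  have : 1 ≤ p := Fact.out
  rw [h] at this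
  simp at this

theorem coord_cont (i : ℕ) : Continuous (fun x : LP p => x i) := by
  have h : ∀ x : LP p, |x i| ≤ ‖x‖ := fun x => lp.norm_apply_le_norm (p_ne_zero (hpt := hpt)) x i
  rw [Metric.continuous_iff]
  intro x ε hε
  refine ⟨ε, hε, fun y hy => ?_⟩
  rw [dist_eq_norm] at hy ⊢
  have := h (y - x)
  rw [lp.coeFn_sub, Pi.sub_apply] at this
  exact lt_of_le_of_lt this hy

theorem CT_closed (N : ℕ) : IsClosed (CT N : Set (LP p)) := by
  have : (CT N : Set (LP p)) = ⋂ i ∈ Finset.range N, {c : LP p | c i = 0} := by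
    ext c; simp [CT]
  rw [this]
  exact isClosed_biInter (fun i _ => isClosed_eq (coord_cont i) continuous_const)

theorem Tl_dense (N : ℕ) : (CT N : Set (LP p)) ⊆ closure (Tl N) := by
  intro w hw
  have h1 := lp.hasSum_single (p := p) (hpt.out) w
  have h2 := h1.tendsto_sum_nat
  refine mem_closure_of_tendsto h2 (Eventually.of_forall fun n => ?_)
  have happ : ∀ i, (∑ j ∈ Finset.range n, lp.single p j (w j)) i = if i < n then w i else 0 := by
    intro i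
    rw [lp.coeFn_sum, Finset.sum_apply]
    simp only [lp.single_apply, Pi.single_apply]
    rw [Finset.sum_ite_eq]
    simp
  refine ⟨fun i hi => ?_, n, fun i hi => ?_⟩
  · rw [happ, hw i hi]; simp
  · rw [happ, if_neg (by omega)]

/-- unit vectors -/
noncomputable def e (j : ℕ) : LP p := lp.single p j (1:ℝ)

theorem e_apply (j i : ℕ) : (e j : LP p) i = if i = j then 1 else 0 := by
  rw [e, lp.single_apply, Pi.single_apply]

theorem e_norm (j : ℕ) : ‖(e j : LP p)‖ = 1 := by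
  rw [e, lp.norm_single (pos_iff_ne_zero.2 (p_ne_zero (hpt := hpt)))]; simp

theorem Tl_add {N : ℕ} {a b : LP p} (ha : a ∈ Tl N) (hb : b ∈ Tl N) : a + b ∈ Tl N := by
  obtain ⟨h1, M1, h2⟩ := ha
  obtain ⟨h3, M2, h4⟩ := hb
  refine ⟨fun i hi => by rw [lp.coeFn_add, Pi.add_apply, h1 i hi, h3 i hi, add_zero], max M1 M2, fun i hi => ?_⟩
  rw [lp.coeFn_add, Pi.add_apply, h2 i (le_trans (le_max_left _ _) hi), h4 i (le_trans (le_max_right _ _) hi), add_zero]

theorem Tl_smul {N : ℕ} {a : LP p} (t : ℝ) (ha : a ∈ Tl N) : t • a ∈ Tl N := by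
  obtain ⟨h1, M1, h2⟩ := ha
  refine ⟨fun i hi => by rw [lp.coeFn_smul, Pi.smul_apply, h1 i hi, smul_zero], M1, fun i hi => ?_⟩
  rw [lp.coeFn_smul, Pi.smul_apply, h2 i hi, smul_zero]

theorem Tl_neg {N : ℕ} {a : LP p} (ha : a ∈ Tl N) : -a ∈ Tl N := by
  have := Tl_smul (-1) ha
  rwa [neg_one_smul] at this

theorem Tl_zero (N : ℕ) : (0 : LP p) ∈ Tl N := ⟨fun i _ => by simp, 0, fun i _ => by simp⟩

theorem Tl_mono {N M : ℕ} (h : N ≤ M) : (Tl M : Set (LP p)) ⊆ Tl N := fun c hc => ⟨fun i hi => hc.1 i (lt_of_lt_of_le hi h), hc.2⟩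

theorem CT_mono {N M : ℕ} (h : N ≤ M) : (CT M : Set (LP p)) ⊆ CT N := fun c hc i hi => hc i (lt_of_lt_of_le hi h)

theorem CT_add {N : ℕ} {a b : LP p} (ha : a ∈ CT N) (hb : b ∈ CT N) : a + b ∈ CT N := by
  intro i hi
  rw [lp.coeFn_add, Pi.add_apply, ha i hi, hb i hi, add_zero]

theorem e_Tl {N j : ℕ} (h : N ≤ j) : (e j : LP p) ∈ Tl N :=
  ⟨fun i hi => by rw [e_apply, if_neg (by omega)], j + 1, fun i hi => by rw [e_apply, if_neg (by omega)]⟩

theorem Blw_mono {N M : ℕ} (h : N ≤ M) : (Blw N : Set (LP p)) ⊆ Blw M := fun c hc i hi => hc i (le_trans h hi)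

theorem Blw_add {N : ℕ} {a b : LP p} (ha : a ∈ Blw N) (hb : b ∈ Blw N) : a + b ∈ Blw N := by
  intro i hi
  rw [lp.coeFn_add, Pi.add_apply, ha i hi, hb i hi, add_zero]

end H312Gat
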