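import Pool.Agent.H312Gat.A1
set_option linter.unusedVariables false
set_option linter.unusedSectionVars false
open Set Filter Topology
open scoped ENNReal

namespace H312Gat

variable {p : ℝ≥0∞} [Fact (1 ≤ p)] [hpt : Fact (p ≠ ⊤)]

/-- k-linear forms on `ℓ_p` -/
abbrev ML (p : ℝ≥0∞) [Fact (1 ≤ p)] (k : ℕ) := ContinuousMultilinearMap ℝ (fun _ : Fin k => LP p) ℝ

/-- the value on the diagonal -/
noncomputable def dg {k : ℕ} (M : ML p k) (c : LP p) : ℝ := M (fun _ => c)

theorem dg_def {k : ℕ} (M : ML p k) (c : LP p) : dg M c = M (fun _ => c) := rfl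

theorem dg_cont {k : ℕ} (M : ML p k) : Continuous (dg M) :=
  M.cont.comp (continuous_pi (fun _ => continuous_id))

theorem dg_bound {k : ℕ} (M : ML p k) (c : LP p) : |dg M c| ≤ ‖M‖ * ‖c‖ ^ k := by
  have := M.le_opNorm (fun _ => c)
  rw [dg_def]
  simpa [Real.norm_eq_abs] using this

theorem dg_smul {k : ℕ} (M : ML p k) (t : ℝ) (c : LP p) : dg M (t • c) = t ^ k * dg M c := by
  have := M.map_smul_univ (fun _ => t) (fun _ => c)
  rw [dg_def, dg_def]
  simpa using this

theorem dg_neg {k : ℕ} (M : ML p k) (c : LP p) : dg (-M) c = - dg M c := rfl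

/-- tail smallness -/
def TS (k : ℕ) : Prop := ∀ M : ML p k, ∀ τ > 0, ∃ N, ∀ c ∈ CT N, |dg M c| ≤ τ * ‖c‖ ^ k

theorem restr_dg {k n : ℕ} (M : ML p n) (s : Finset (Fin n)) (hk : s.card = k) (v c : LP p) :
    dg (M.restr s hk v) c = M (sᶜ.piecewise (fun _ => v) (fun _ => c)) := by
  have h1 : dg (M.restr s hk v) c = M (fun j => if h : j ∈ s then c else v) := rfl
  rw [h1]
  congr 1
  ext1 j
  by_cases h : j ∈ s
  · rw [dif_pos h, Finset.piecewise_eq_of_notMem _ _ _ (by simpa using h)]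
  · rw [dif_neg h, Finset.piecewise_eq_of_mem _ _ _ (by simpa using h)]

/-- cross terms -/
theorem cross {k : ℕ} (hk : 1 ≤ k) (H : ∀ i, 1 ≤ i → i < k → TS (p := p) i) (M : ML p k) (v : LP p)
    {τ : ℝ} (hτ : 0 < τ) : ∃ N, ∀ c ∈ CT N, ‖c‖ ≤ 1 → |dg M (v + c) - dg M v - dg M c| ≤ τ := by
  classical
  -- for each subset
  have key : ∀ s : Finset (Fin k), ∃ N, s ≠ ∅ → s ≠ Finset.univ → ∀ c ∈ CT N, ‖c‖ ≤ 1 →
      |M (s.piecewise (fun _ => v) (fun _ => c))| ≤ τ / 2 ^ k := by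
    intro s
    by_cases h1 : s = ∅
    · exact ⟨0, fun h => absurd h1 h⟩
    by_cases h2 : s = Finset.univ
    · exact ⟨0, fun _ h => absurd h2 h⟩
    have hc1 : 1 ≤ (sᶜ).card := by
      rw [Nat.one_le_iff_ne_zero]
      intro h
      rw [Finset.card_eq_zero] at h
      exact h2 ((Finset.compl_eq_empty_iff s).1 h)
    have hc2 : (sᶜ).card < k := by
      have h3 := Finset.card_compl_add_card s
      have h4 : 0 < s.card := Finset.card_pos.2 (Finset.nonempty_iff_ne_empty.2 h1)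
      rw [Fintype.card_fin] at h3
      omega
    obtain ⟨N, hN⟩ := H _ hc1 hc2 (M.restr sᶜ rfl v) (τ / 2 ^ k) (by positivity)
    refine ⟨N, fun _ _ c hc hc1 => ?_⟩
    have h5 := hN c hc
    rw [restr_dg, compl_compl] at h5
    refine le_trans h5 ?_
    have : ‖c‖ ^ (sᶜ).card ≤ 1 := pow_le_one₀ (norm_nonneg _) hc1
    calc τ / 2 ^ k * ‖c‖ ^ (sᶜ).card ≤ τ / 2 ^ k * 1 := by gcongr
      _ = τ / 2 ^ k := mul_one _
  choose N hN using key
  refine ⟨Finset.univ.sup N, fun c hc hc1 => ?_⟩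
  have h1 : dg M (v + c) = ∑ s : Finset (Fin k), M (s.piecewise (fun _ => v) (fun _ => c)) := by
    have := M.map_add_univ (fun _ => v) (fun _ => c)
    rw [← this]; rfl
  have h2 : dg M v = M ((Finset.univ : Finset (Fin k)).piecewise (fun _ => v) (fun _ => c)) := by
    rw [Finset.piecewise_univ, dg_def]
  have h3 : dg M c = M ((∅ : Finset (Fin k)).piecewise (fun _ => v) (fun _ => c)) := by
    rw [Finset.piecewise_empty, dg_def]
  have hne : (Finset.univ : Finset (Fin k)) ≠ ∅ := by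
    intro h
    have := congrArg Finset.card h
    simp at this
    omega
  rw [h1, h2, h3]
  rw [← Finset.add_sum_erase _ _ (Finset.mem_univ (Finset.univ : Finset (Fin k)))]
  rw [← Finset.add_sum_erase _ _ (Finset.mem_erase.2 ⟨hne.symm, Finset.mem_univ (∅ : Finset (Fin k))⟩)]
  have h4 : ∀ a b s : ℝ, a + (b + s) - a - b = s := by intro a b s; ring
  rw [h4]
  refine le_trans (Finset.abs_sum_le_sum_abs _ _) ?_
  refine le_trans (Finset.sum_le_card_nsmul _ _ (τ / 2 ^ k) (fun s hs => ?_)) ?_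
  · rw [Finset.mem_erase, Finset.mem_erase] at hs
    exact hN s hs.1 hs.2.1 c (CT_mono (Finset.le_sup (Finset.mem_univ s)) hc) hc1
  · rw [nsmul_eq_mul]
    have h5 : (((Finset.univ : Finset (Finset (Fin k))).erase Finset.univ).erase ∅).card ≤ 2 ^ k := by
      refine le_trans (Finset.card_erase_le) (le_trans Finset.card_erase_le ?_)
      rw [Finset.card_univ, Fintype.card_finset, Fintype.card_fin]
    calc ((((Finset.univ : Finset (Finset (Fin k))).erase Finset.univ).erase ∅).card : ℝ) * (τ / 2 ^ k)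
        ≤ ((2 ^ k : ℕ) : ℝ) * (τ / 2 ^ k) := by gcongr
      _ = τ := by push_cast; field_simp

theorem tail_small : ∀ k : ℕ, 1 ≤ k → (k:ℝ) < p.toReal → TS (p := p) k := by
  intro k
  induction k using Nat.strong_induction_on with
  | _ k ih =>
  intro hk hkp
  have H : ∀ i, 1 ≤ i → i < k → TS (p := p) i := fun i h1 h2 => ih i h2 h1 (lt_trans (by exact_mod_cast h2) hkp)
  -- main: no far unit blocks with `M c > τ`
  have main : ∀ M : ML p k, ∀ τ > 0, ∃ N, ∀ c ∈ Tl N, ‖c‖ = 1 → dg M c ≤ τ := by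
    intro M τ hτ
    by_contra hcon
    push Not at hcon
    have build : ∀ n : ℕ, ∃ s : LP p, s ∈ Tl 0 ∧ nu s = n ∧ n * (τ / 2) ≤ dg M s := by
      intro n
      induction n with
      | zero =>
        refine ⟨0, Tl_zero 0, by rw [nu_zero]; simp, ?_⟩
        have : dg M 0 = 0 := by
          have := dg_bound M 0
          rw [norm_zero, zero_pow (by omega), mul_zero] at this
          exact abs_nonpos_iff.1 this
        rw [this]; simp
      | succ n ihn =>
        obtain ⟨s, hs0, hs1, hs2⟩ := ihn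
        obtain ⟨N1, hN1⟩ := cross hk H M s (half_pos hτ)
        obtain ⟨N2, _, hN2⟩ := Tl_Blw hs0
        obtain ⟨c, hc0, hc1, hc2⟩ := hcon (max N1 N2)
        have hcT : c ∈ CT N2 := CT_mono (le_max_right _ _) (Tl_sub_CT _ hc0)
        refine ⟨s + c, Tl_add hs0 (Tl_mono (Nat.zero_le _) hc0), ?_, ?_⟩
        · rw [nu_add hN2 hcT, hs1, nu_def, hc1]; push_cast; simp
        · have h6 := hN1 c (CT_mono (le_max_left _ _) (Tl_sub_CT _ hc0)) hc1.le
          rw [abs_le] at h6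
          push_cast
          linarith [h6.1]
    -- growth contradiction
    have hlim : Tendsto (fun n : ℕ => ((n:ℝ) ^ (1 / p.toReal)) ^ (p.toReal - k)) atTop atTop := by
      refine (tendsto_rpow_atTop (by linarith)).comp ?_
      exact (tendsto_rpow_atTop (by have := pr_pos (p := p); positivity)).comp tendsto_natCast_atTop_atTop
    obtain ⟨n, hn1, hn2⟩ := ((hlim.eventually_gt_atTop (2 * ‖M‖ / τ)).and (eventually_ge_atTop 1)).exists
    obtain ⟨s, hs0, hs1, hs2⟩ := build n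
    have hn0 : (0:ℝ) < n := by exact_mod_cast hn2
    have hsn : ‖s‖ = (n:ℝ) ^ (1 / p.toReal) := by
      rw [← hs1, nu_def, ← Real.rpow_mul (norm_nonneg _), mul_one_div_cancel (pr_pos (p := p)).ne', Real.rpow_one]
    have hspos : 0 < ‖s‖ := by rw [hsn]; positivity
    rw [← hsn] at hn1
    have h7 : (n:ℝ) * (τ / 2) ≤ ‖M‖ * ‖s‖ ^ k := le_trans hs2 (le_trans (le_abs_self _) (dg_bound M s))
    rw [← hs1, nu_def] at h7
    have h8 : ‖s‖ ^ p.toReal = ‖s‖ ^ (p.toReal - k) * ‖s‖ ^ k := by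
      rw [← Real.rpow_natCast, ← Real.rpow_add hspos]; congr 1; ring
    rw [h8] at h7
    have h9 : 0 < ‖s‖ ^ k := by positivity
    have h10 : ‖s‖ ^ (p.toReal - k) * (τ / 2) ≤ ‖M‖ := by
      refine le_of_mul_le_mul_right ?_ h9
      linarith
    rw [div_lt_iff₀ hτ] at hn1
    linarith
  intro M τ hτ
  obtain ⟨N1, hN1⟩ := main M τ hτ
  obtain ⟨N2, hN2⟩ := main (-M) τ hτ
  refine ⟨max N1 N2, ?_⟩
  have hT : (Tl (max N1 N2) : Set (LP p)) ⊆ {c | |dg M c| ≤ τ * ‖c‖ ^ k} := by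
    intro c hc
    rcases eq_or_lt_of_le (norm_nonneg c) with h0 | h0
    · have hc0 : c = 0 := norm_eq_zero.1 h0.symm
      have := dg_bound M c
      rw [← h0, zero_pow (by omega), mul_zero] at this
      show |dg M c| ≤ τ * ‖c‖ ^ k
      rw [← h0, zero_pow (by omega), mul_zero]; exact this
    · have hu : ‖(‖c‖⁻¹ • c)‖ = 1 := by
        rw [norm_smul, norm_inv, norm_norm, inv_mul_cancel₀ h0.ne']
      have hcu : c = ‖c‖ • (‖c‖⁻¹ • c) := by rw [smul_smul, mul_inv_cancel₀ h0.ne', one_smul]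
      have h1 := hN1 (‖c‖⁻¹ • c) (Tl_mono (le_max_left _ _) (Tl_smul _ hc)) hu
      have h2 := hN2 (‖c‖⁻¹ • c) (Tl_mono (le_max_right _ _) (Tl_smul _ hc)) hu
      rw [dg_neg] at h2
      have h3 : dg M c = ‖c‖ ^ k * dg M (‖c‖⁻¹ • c) := by
        conv_lhs => rw [hcu]
        rw [dg_smul]
      show |dg M c| ≤ τ * ‖c‖ ^ k
      rw [h3, abs_mul, abs_of_pos (by positivity : 0 < ‖c‖ ^ k), mul_comm]
      have h4 : |dg M (‖c‖⁻¹ • c)| ≤ τ := abs_le.2 ⟨by linarith, h1⟩
      gcongr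
  have hcl : IsClosed {c : LP p | |dg M c| ≤ τ * ‖c‖ ^ k} :=
    isClosed_le (dg_cont M).abs (continuous_const.mul (continuous_norm.pow k))
  intro c hc
  exact (closure_minimal hT hcl) (Tl_dense _ hc)

end H312Gat
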