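import Pool.Agent.H312Gat.A2
set_option linter.unusedVariables false
set_option linter.unusedSectionVars false
open Set Filter Topology
open scoped ENNReal

namespace H312Gat

variable {p : ℝ≥0∞} [Fact (1 ≤ p)] [hpt : Fact (p ≠ ⊤)]

/-- critical-degree odd functions that are asymptotically additive on tails -/
structure Cub (P : LP p → ℝ) : Prop where
  lip : ∀ R : ℝ, ∃ K, 0 ≤ K ∧ ∀ u v, ‖u‖ ≤ R → ‖v‖ ≤ R → |P u - P v| ≤ K * ‖u - v‖
  cr : ∀ v, ∀ τ > 0, ∃ N, ∀ c ∈ CT N, ‖c‖ ≤ 1 → |P (v + c) - P v - P c| ≤ τ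
  hom : ∀ t : ℝ, 0 ≤ t → ∀ c, P (t • c) = t ^ p.toReal * P c
  odd : ∀ c, P (-c) = - P c

/-- small on far tails, compared with `‖·‖^p` -/
def TSm (S : LP p → ℝ) : Prop := ∀ ε > 0, ∀ ρ > 0, ∃ N, ∀ v ∈ CT N, ρ ≤ ‖v‖ → ‖v‖ ≤ 1 → |S v| ≤ ε * nu v

theorem Cub.zero {P : LP p → ℝ} (h : Cub P) : P 0 = 0 := by
  have := h.odd 0
  rw [neg_zero] at this
  linarith

theorem Cub.cont {P : LP p → ℝ} (h : Cub P) : Continuous P := by
  rw [Metric.continuous_iff]
  intro x ε hε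
  obtain ⟨K, hK0, hK⟩ := h.lip (‖x‖ + 1)
  refine ⟨min 1 (ε / (K + 1)), lt_min one_pos (by positivity), fun y hy => ?_⟩
  rw [dist_eq_norm] at hy
  have h1 : ‖y - x‖ < 1 := lt_of_lt_of_le hy (min_le_left _ _)
  have h2 : ‖y - x‖ < ε / (K + 1) := lt_of_lt_of_le hy (min_le_right _ _)
  have h3 : ‖y‖ ≤ ‖x‖ + 1 := by
    have := norm_add_le (y - x) x
    rw [sub_add_cancel] at this
    linarith
  have h4 := hK y x h3 (by linarith)
  rw [Real.dist_eq]
  rw [lt_div_iff₀ (by positivity)] at h2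
  have h5 : 0 ≤ ‖y - x‖ := norm_nonneg _
  nlinarith

theorem cub_zero : Cub (fun _ : LP p => (0:ℝ)) where
  lip := fun R => ⟨0, le_refl _, fun u v _ _ => by simp⟩
  cr := fun v τ hτ => ⟨0, fun c _ _ => by simp; exact hτ.le⟩
  hom := fun t _ c => by simp
  odd := fun c => by simp

theorem cub_dg {d : ℕ} (hd : (d:ℝ) = p.toReal) (hodd : Odd d) (M : ML p d) : Cub (dg M) where
  lip := by
    intro R
    refine ⟨‖M‖ * d * (max R 0) ^ (d - 1), by positivity, fun u v hu hv => ?_⟩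
    have h1 := M.norm_image_sub_le (fun _ => u) (fun _ => v)
    rw [Fintype.card_fin] at h1
    have h2 : ‖(fun _ : Fin d => u) - (fun _ : Fin d => v)‖ ≤ ‖u - v‖ := by
      rw [pi_norm_le_iff_of_nonneg (norm_nonneg _)]
      intro i; exact le_refl _
    have h3 : ‖(fun _ : Fin d => u)‖ ≤ max R 0 := by
      rw [pi_norm_le_iff_of_nonneg (le_max_right _ _)]
      intro i; exact le_trans hu (le_max_left _ _)
    have h4 : ‖(fun _ : Fin d => v)‖ ≤ max R 0 := by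
      rw [pi_norm_le_iff_of_nonneg (le_max_right _ _)]
      intro i; exact le_trans hv (le_max_left _ _)
    refine le_trans h1 ?_
    have h5 : max ‖(fun _ : Fin d => u)‖ ‖(fun _ : Fin d => v)‖ ≤ max R 0 := max_le h3 h4
    gcongr
  cr := by
    intro v τ hτ
    have hd1 : 1 ≤ d := hodd.pos
    exact cross hd1 (fun i h1 h2 => tail_small i h1 (by rw [← hd]; exact_mod_cast h2)) M v hτ
  hom := by
    intro t ht c
    rw [dg_smul, ← hd, Real.rpow_natCast]
  odd := by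
    intro c
    have := dg_smul M (-1) c
    rw [neg_one_smul, hodd.neg_one_pow] at this
    linarith

theorem tsm_zero : TSm (fun _ : LP p => (0:ℝ)) := fun ε hε ρ hρ =>
  ⟨0, fun v _ _ _ => by simp; exact mul_nonneg hε.le (nu_nonneg _)⟩

theorem tsm_add {S T : LP p → ℝ} (hS : TSm S) (hT : TSm T) : TSm (fun v => S v + T v) := by
  intro ε hε ρ hρ
  obtain ⟨N1, h1⟩ := hS (ε / 2) (half_pos hε) ρ hρ
  obtain ⟨N2, h2⟩ := hT (ε / 2) (half_pos hε) ρ hρ
  refine ⟨max N1 N2, fun v hv hv1 hv2 => ?_⟩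
  have h3 := h1 v (CT_mono (le_max_left _ _) hv) hv1 hv2
  have h4 := h2 v (CT_mono (le_max_right _ _) hv) hv1 hv2
  have h5 := abs_add_le (S v) (T v)
  linarith

theorem tsm_sum {ι : Type*} (s : Finset ι) (S : ι → LP p → ℝ) (h : ∀ i ∈ s, TSm (S i)) :
    TSm (fun v => ∑ i ∈ s, S i v) := by
  classical
  induction s using Finset.induction_on with
  | empty => simpa using tsm_zero
  | insert a s ha ih =>
    simp only [Finset.sum_insert ha]
    exact tsm_add (h a (Finset.mem_insert_self _ _)) (ih fun i hi => h i (Finset.mem_insert_of_mem hi))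

theorem tsm_dg {k : ℕ} (hk : 1 ≤ k) (hkp : (k:ℝ) < p.toReal) (M : ML p k) : TSm (dg M) := by
  intro ε hε ρ hρ
  obtain ⟨N, hN⟩ := tail_small k hk hkp M (ε * ρ ^ p.toReal) (by positivity)
  refine ⟨N, fun v hv hv1 hv2 => le_trans (hN v hv) ?_⟩
  have h1 : ‖v‖ ^ k ≤ 1 := pow_le_one₀ (norm_nonneg _) hv2
  have h2 : ρ ^ p.toReal ≤ nu v := (le_nu_iff hρ.le).2 hv1
  have h3 : 0 ≤ ρ ^ p.toReal := by positivity
  calc ε * ρ ^ p.toReal * ‖v‖ ^ k ≤ ε * ρ ^ p.toReal * 1 := by gcongr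
    _ = ε * ρ ^ p.toReal := mul_one _
    _ ≤ ε * nu v := by gcongr

theorem tsm_smul {S : LP p → ℝ} (a : ℝ) (hS : TSm S) : TSm (fun v => a * S v) := by
  intro ε hε ρ hρ
  obtain ⟨N, hN⟩ := hS (ε / (|a| + 1)) (by positivity) ρ hρ
  refine ⟨N, fun v hv hv1 hv2 => ?_⟩
  have h := hN v hv hv1 hv2
  rw [abs_mul]
  have h0 : 0 ≤ |a| := abs_nonneg a
  have h1 : 0 ≤ nu v := nu_nonneg v
  calc |a| * |S v| ≤ |a| * (ε / (|a| + 1) * nu v) := by gcongr
    _ ≤ (|a| + 1) * (ε / (|a| + 1) * nu v) := by gcongr; linarith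
    _ = ε * nu v := by field_simp

/-- lemma (d): far unit vectors nearly annihilated by finitely many critical functions -/
theorem far_unit {L : Set (LP p → ℝ)} (hLf : L.Finite) (hL : ∀ P ∈ L, Cub P) (N : ℕ) {τ : ℝ}
    (hτ : 0 < τ) : ∃ u ∈ Tl N, ‖u‖ = 1 ∧ ∀ P ∈ L, |P u| ≤ τ := by
  classical
  have : Finite L := hLf
  have : Fintype L := Fintype.ofFinite L
  have hK : ∀ P : L, ∃ K : ℝ, ∀ u, ‖u‖ ≤ 1 → |P.1 u| ≤ K := by
    intro P
    obtain ⟨K, hK0, hK⟩ := (hL P.1 P.2).lip 1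
    refine ⟨K, fun u hu => ?_⟩
    have := hK u 0 hu (by simp)
    rw [(hL P.1 P.2).zero, sub_zero, sub_zero] at this
    calc |P.1 u| ≤ K * ‖u‖ := this
      _ ≤ K * 1 := by gcongr
      _ = K := mul_one _
  choose K hK using hK
  have hcomp : IsCompact (Set.pi Set.univ (fun P : L => Icc (-(K P)) (K P))) :=
    isCompact_univ_pi (fun P => isCompact_Icc)
  obtain ⟨a, _, φ, hφ, hlim⟩ := hcomp.tendsto_subseq (x := fun j : ℕ => (fun P : L => P.1 (e j)))
    (fun j P _ => abs_le.1 (hK P (e j) (e_norm j).le))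
  rw [tendsto_pi_nhds] at hlim
  have hev : ∀ᶠ n in atTop, ∀ P : L, |P.1 (e (φ n)) - a P| ≤ τ / 4 := by
    rw [eventually_all]
    intro P
    have h1 := (Metric.tendsto_atTop.1 (hlim P)) (τ / 4) (by linarith)
    obtain ⟨n0, hn0⟩ := h1
    filter_upwards [eventually_ge_atTop n0] with n hn
    have := hn0 n hn
    rw [Real.dist_eq] at this
    exact this.le
  obtain ⟨n0, hn0⟩ := eventually_atTop.1 hev
  have hNP : ∀ P : L, ∃ M, ∀ c ∈ CT M, ‖c‖ ≤ 1 → |P.1 (e (φ (max n0 N)) + c) - P.1 (e (φ (max n0 N))) - P.1 c| ≤ τ :=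
    fun P => (hL P.1 P.2).cr _ τ hτ
  choose M hM using hNP
  set j := φ (max n0 N) with hj
  set n1 := max (max n0 N) (max (j + 1) (Finset.univ.sup M)) with hn1
  set k := φ n1 with hk
  have hjN : N ≤ j := le_trans (le_max_right _ _) (hφ.id_le _)
  have hk1 : n1 ≤ k := hφ.id_le _
  have hkN : N ≤ k := le_trans (le_trans (le_trans (le_max_right _ _) (le_max_left _ _)) (le_refl n1)) hk1
  have hkj : j + 1 ≤ k := le_trans (le_trans (le_max_left _ _) (le_max_right _ _)) hk1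
  have hkM : ∀ P : L, M P ≤ k := fun P =>
    le_trans (le_trans (Finset.le_sup (Finset.mem_univ P)) (le_trans (le_max_right _ _) (le_max_right _ _))) hk1
  have hnu : nu (e j + -(e k) : LP p) = 2 := by
    have hb : (e j : LP p) ∈ Blw (j + 1) := fun i hi => by rw [e_apply, if_neg (by omega)]
    have hw : -(e k : LP p) ∈ CT (j + 1) := Tl_sub_CT _ (Tl_neg (e_Tl hkj))
    rw [nu_add hb hw, nu_def, nu_def, norm_neg, e_norm, e_norm, Real.one_rpow]; norm_num
  have hs0 : 0 < ‖(e j + -(e k) : LP p)‖ := by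
    rcases eq_or_lt_of_le (norm_nonneg (e j + -(e k) : LP p)) with h | h
    · exfalso
      rw [nu_def, ← h, Real.zero_rpow (pr_pos (p := p)).ne'] at hnu
      norm_num at hnu
    · exact h
  refine ⟨‖(e j + -(e k) : LP p)‖⁻¹ • (e j + -(e k)), Tl_smul _ (Tl_add (e_Tl hjN) (Tl_neg (e_Tl hkN))), ?_, ?_⟩
  · rw [norm_smul, norm_inv, norm_norm, inv_mul_cancel₀ hs0.ne']
  · intro P hP
    have hC := hL P hP
    rw [hC.hom _ (by positivity)]
    have h2 : (‖(e j + -(e k) : LP p)‖⁻¹) ^ p.toReal = 1 / 2 := by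
      rw [Real.inv_rpow (norm_nonneg _), ← nu_def, hnu]; norm_num
    rw [h2]
    have h3 := hM ⟨P, hP⟩ (-(e k)) (CT_mono (hkM ⟨P, hP⟩) (Tl_sub_CT _ (Tl_neg (e_Tl (le_refl k))))) (by rw [norm_neg, e_norm])
    change |P (e j + -e k) - P (e j) - P (-e k)| ≤ τ at h3
    rw [hC.odd] at h3
    have h4 := hn0 (max n0 N) (le_max_left _ _) ⟨P, hP⟩
    have h5 := hn0 n1 (le_trans (le_max_left _ _) (le_max_left _ _)) ⟨P, hP⟩
    rw [← hj] at h4
    rw [← hk] at h5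
    change |P (e j) - _| ≤ _ at h4
    change |P (e k) - _| ≤ _ at h5
    rw [abs_le] at h3 h4 h5 ⊢
    constructor <;> linarith [h3.1, h3.2, h4.1, h4.2, h5.1, h5.2]

end H312Gat
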