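import Pool.Agent.H312Gat.A3
set_option linter.unusedVariables false
set_option linter.unusedSectionVars false
open Set Filter Topology
open scoped ENNReal

namespace H312Gat

variable {p : ℝ≥0∞} [Fact (1 ≤ p)] [hpt : Fact (p ≠ ⊤)]

/-- `x` is a trap of `f` -/
def Trap (f : LP p → ℝ) (x : LP p) : Prop :=
  ∃ ε > 0, ∃ L : Set (LP p → ℝ), L.Finite ∧ (∀ P ∈ L, Cub P) ∧ ∃ δ > 0, ∀ ρ > 0, ∃ N, ∀ c ∈ Tl N,
    ρ ≤ ‖c‖ → ‖c‖ ≤ δ → (∀ P ∈ L, |P c| ≤ ε * nu c) → f x + ε * nu c ≤ f (x + c)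

theorem exists_seq_rel {α : Type*} (G : ℕ → α → Prop) (R : α → α → Prop) (s0 : α) (h0 : G 0 s0)
    (step : ∀ k s, G k s → ∃ s', G (k + 1) s' ∧ R s s') :
    ∃ u : ℕ → α, ∀ k, G k (u k) ∧ R (u k) (u (k + 1)) := by
  choose! g hg using step
  let u : ℕ → α := fun n => Nat.rec s0 (fun k s => g k s) n
  have hu : ∀ k, G k (u k) := by
    intro k
    induction k with
    | zero => exact h0
    | succ k ih => exact (hg k (u k) ih).1
  exact ⟨u, fun k => ⟨hu k, (hg k (u k) (hu k)).2⟩⟩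

theorem fin_unif {α : Type*} {L : Set α} (hL : L.Finite) (Q : α → ℕ → Prop)
    (hm : ∀ P N M, N ≤ M → Q P N → Q P M) (h : ∀ P ∈ L, ∃ N, Q P N) : ∃ N, ∀ P ∈ L, Q P N := by
  choose! N hN using h
  exact ⟨hL.toFinset.sup N, fun P hP => hm P (N P) _ (Finset.le_sup (hL.mem_toFinset.2 hP)) (hN P hP)⟩

theorem exists_half_max {A : Set (LP p)} (hA : A.Nonempty) {κ : ℝ} (hb : ∀ c ∈ A, ‖c‖ ≤ κ) :
    ∃ c ∈ A, ∀ c' ∈ A, ‖c'‖ ≤ 2 * ‖c‖ := by
  have hbd : BddAbove (norm '' A) := ⟨κ, by rintro _ ⟨c, hc, rfl⟩; exact hb c hc⟩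
  rcases le_or_gt (sSup (norm '' A)) 0 with h | h
  · obtain ⟨c, hc⟩ := hA
    refine ⟨c, hc, fun c' hc' => ?_⟩
    have := le_csSup hbd ⟨c', hc', rfl⟩
    have h2 := norm_nonneg c
    linarith
  · obtain ⟨_, ⟨c, hc, rfl⟩, h2⟩ := exists_lt_of_lt_csSup (hA.image norm) (half_lt_self h)
    refine ⟨c, hc, fun c' hc' => ?_⟩
    have := le_csSup hbd ⟨c', hc', rfl⟩
    linarith

set_option maxHeartbeats 4000000 in
theorem walk {f : LP p → ℝ} (hf : Continuous f) (z₀ : LP p) (N₁ : ℕ) {η κ τ S : ℝ} (hη : 0 < η)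
    (hκ : 0 < κ) (hκ1 : κ ≤ 1) (hτ : 0 < τ) (hS : 0 ≤ S) {L : Set (LP p → ℝ)} (hLf : L.Finite)
    (hL : ∀ P ∈ L, Cub P)
    (H : ∀ w ∈ CT N₁, nu w ≤ S → f (z₀ + w) ≤ f z₀ + η * nu w → (∀ P ∈ L, |P w| ≤ η * nu w + τ) →
      ¬ Trap f (z₀ + w)) :
    ∃ w ∈ Tl N₁, S < nu w ∧ nu w ≤ S + κ ^ p.toReal ∧ f (z₀ + w) ≤ f z₀ + η * nu w ∧
      ∀ P ∈ L, |P w| ≤ η * nu w + τ := by
  by_contra hno
  push Not at hno
  have hpr := pr_pos (p := p)
  -- states
  let Adm : LP p × ℕ → Set (LP p) := fun s => {c | c ∈ Tl s.2 ∧ ‖c‖ ≤ κ ∧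
    f (z₀ + s.1 + c) ≤ f (z₀ + s.1) + η * nu c ∧ ∀ P ∈ L, |P c| ≤ η * nu c}
  let G : ℕ → LP p × ℕ → Prop := fun k s => s.1 ∈ Tl N₁ ∧ s.1 ∈ Blw s.2 ∧ N₁ ≤ s.2 ∧ nu s.1 ≤ S ∧
    f (z₀ + s.1) ≤ f z₀ + η * nu s.1 ∧ (∀ P ∈ L, |P s.1| ≤ η * nu s.1 + τ * (1 - (1 / 2) ^ k)) ∧
    (∀ P ∈ L, ∀ c ∈ CT s.2, ‖c‖ ≤ 1 → |P (s.1 + c) - P s.1 - P c| ≤ τ * (1 / 2) ^ (k + 1))
  let R : LP p × ℕ → LP p × ℕ → Prop := fun s s' => ∃ c ∈ Adm s, s'.1 = s.1 + c ∧ s.2 ≤ s'.2 ∧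
    ∀ c' ∈ Adm s, ‖c'‖ ≤ 2 * ‖c‖
  -- choosing the next cut
  have hcut : ∀ w ∈ Tl N₁, ∀ M : ℕ, ∀ σ > 0, ∃ N, M ≤ N ∧ N₁ ≤ N ∧ w ∈ Blw N ∧
      ∀ P ∈ L, ∀ c ∈ CT N, ‖c‖ ≤ 1 → |P (w + c) - P w - P c| ≤ σ := by
    intro w hw M σ hσ
    obtain ⟨M1, hM1, hM2⟩ := Tl_Blw hw
    obtain ⟨M2, hM3⟩ := fin_unif hLf
      (fun P N => ∀ c ∈ CT N, ‖c‖ ≤ 1 → |P (w + c) - P w - P c| ≤ σ)
      (fun P N M hNM h c hc => h c (CT_mono hNM hc)) (fun P hP => (hL P hP).cr w σ hσ)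
    refine ⟨max M (max M1 M2), le_max_left _ _, ?_, ?_, ?_⟩
    · exact le_trans hM1 (le_trans (le_max_left _ _) (le_max_right _ _))
    · exact Blw_mono (le_trans (le_max_left _ _) (le_max_right _ _)) hM2
    · intro P hP c hc
      exact hM3 P hP c (CT_mono (le_trans (le_max_right _ _) (le_max_right _ _)) hc)
  have hP0 : ∀ P ∈ L, P 0 = 0 := fun P hP => (hL P hP).zero
  obtain ⟨N0, _, hN0a, hN0b, hN0c⟩ := hcut 0 (Tl_zero _) 0 (τ * (1 / 2) ^ (0 + 1)) (by positivity)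
  have hG0 : G 0 (0, N0) := by
    refine ⟨Tl_zero _, hN0b, hN0a, by rw [nu_zero]; exact hS, ?_, ?_, hN0c⟩
    · show f (z₀ + 0) ≤ _
      rw [add_zero, nu_zero, mul_zero, add_zero]
    · intro P hP
      show |P 0| ≤ _
      rw [hP0 P hP, nu_zero]; simp
  have step : ∀ k s, G k s → ∃ s', G (k + 1) s' ∧ R s s' := by
    rintro k ⟨w, N⟩ ⟨g1, g2, g3, g4, g5, g6, g7⟩
    simp only at g1 g2 g3 g4 g5 g6 g7
    have h0A : (0 : LP p) ∈ Adm (w, N) := by
      refine ⟨Tl_zero _, by rw [norm_zero]; exact hκ.le, ?_, ?_⟩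
      · show f (z₀ + w + 0) ≤ f (z₀ + w) + _
        rw [add_zero, nu_zero, mul_zero, add_zero]
      · intro P hP
        rw [hP0 P hP, nu_zero]; simp
    obtain ⟨c, hc, hcm⟩ := exists_half_max (A := Adm (w, N)) ⟨0, h0A⟩ (fun c hc => hc.2.1)
    obtain ⟨hc1, hc2, hc3, hc4⟩ := hc
    simp only at hc1 hc3
    have hwT : w + c ∈ Tl N₁ := Tl_add g1 (Tl_mono g3 hc1)
    have hnu : nu (w + c) = nu w + nu c := nu_add g2 (Tl_sub_CT _ hc1)
    have hnc : nu c ≤ κ ^ p.toReal := (nu_le_iff hκ.le).2 hc2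
    have hfw : f (z₀ + (w + c)) ≤ f z₀ + η * nu (w + c) := by
      rw [← add_assoc, hnu]; linarith
    have hPw : ∀ P ∈ L, |P (w + c)| ≤ η * nu (w + c) + τ * (1 - (1 / 2) ^ (k + 1)) := by
      intro P hP
      have h1 := g7 P hP c (Tl_sub_CT _ hc1) (le_trans hc2 hκ1)
      have h2 := g6 P hP
      have h3 := hc4 P hP
      have h4 : τ * (1 - (1 / 2) ^ (k + 1)) = τ * (1 - (1 / 2) ^ k) + τ * (1 / 2) ^ (k + 1) := by
        rw [pow_succ]; ring
      rw [hnu, h4]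
      rw [abs_le] at h1 h2 h3 ⊢
      constructor <;> linarith [h1.1, h1.2, h2.1, h2.2, h3.1, h3.2]
    have hPw' : ∀ P ∈ L, |P (w + c)| ≤ η * nu (w + c) + τ := by
      intro P hP
      refine le_trans (hPw P hP) ?_
      have : (0:ℝ) < (1 / 2) ^ (k + 1) := by positivity
      nlinarith
    have hnS : nu (w + c) ≤ S := by
      by_contra hlt
      push Not at hlt
      obtain ⟨P, hP, hbad⟩ := hno (w + c) hwT hlt (by rw [hnu]; linarith) hfw
      linarith [hPw' P hP]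
    obtain ⟨N', hN1, hN2, hN3, hN4⟩ := hcut (w + c) hwT N (τ * (1 / 2) ^ (k + 1 + 1)) (by positivity)
    exact ⟨(w + c, N'), ⟨hwT, hN3, hN2, hnS, hfw, hPw, hN4⟩, c, ⟨hc1, hc2, hc3, hc4⟩, rfl, hN1, hcm⟩
  obtain ⟨u, hu⟩ := exists_seq_rel G R (0, N0) hG0 step
  have hGk : ∀ k, G k (u k) := fun k => (hu k).1
  have hRk : ∀ k, R (u k) (u (k + 1)) := fun k => (hu k).2
  choose c hcA hcw hcN hcm using hRk
  have hNmono : Monotone (fun k => (u k).2) := monotone_nat_of_le_succ hcN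
  have hdiff : ∀ k l, k ≤ l → (u l).1 - (u k).1 ∈ Tl (u k).2 := by
    intro k l hkl
    induction l, hkl using Nat.le_induction with
    | base => rw [sub_self]; exact Tl_zero _
    | succ l hkl ih =>
      rw [hcw l, add_sub_right_comm]
      exact Tl_add ih (Tl_mono (hNmono hkl) (hcA l).1)
  have hnul : ∀ k l, k ≤ l → nu (u l).1 = nu (u k).1 + nu ((u l).1 - (u k).1) := by
    intro k l hkl
    rw [← nu_add (hGk k).2.1 (Tl_sub_CT _ (hdiff k l hkl)), add_sub_cancel]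
  have hfl : ∀ k l, k ≤ l → f (z₀ + (u l).1) ≤ f (z₀ + (u k).1) + η * (nu (u l).1 - nu (u k).1) := by
    intro k l hkl
    induction l, hkl using Nat.le_induction with
    | base => simp
    | succ l hkl ih =>
      have h1 := (hcA l).2.2.1
      have h2 : nu (u (l + 1)).1 = nu (u l).1 + nu (c l) := by
        rw [hcw l]; exact nu_add (hGk l).2.1 (Tl_sub_CT _ (hcA l).1)
      rw [h2, hcw l, ← add_assoc]
      linarith
  have hmono : Monotone (fun k => nu (u k).1) := by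
    intro k l hkl
    have := hnul k l hkl
    have h2 := nu_nonneg ((u l).1 - (u k).1)
    simp only
    linarith
  have hbdd : BddAbove (range (fun k => nu (u k).1)) := ⟨S, by rintro _ ⟨k, rfl⟩; exact (hGk k).2.2.2.1⟩
  obtain ⟨a, ha⟩ : ∃ a, Tendsto (fun k => nu (u k).1) atTop (𝓝 a) := ⟨_, tendsto_atTop_ciSup hmono hbdd⟩
  have hale : ∀ k, nu (u k).1 ≤ a := fun k => hmono.ge_of_tendsto ha k
  have hclose : ∀ β > 0, ∃ k, a - nu (u k).1 < β := by
    intro β hβ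
    obtain ⟨k, hk⟩ := Metric.tendsto_atTop.1 ha β hβ
    refine ⟨k, ?_⟩
    have := hk k le_rfl
    rw [Real.dist_eq, abs_sub_comm] at this
    exact lt_of_le_of_lt (le_abs_self _) this
  have hsmall : ∀ μ : ℝ, 0 < μ → ∀ k l, k ≤ l → a - nu (u k).1 < μ ^ p.toReal →
      ‖(u l).1 - (u k).1‖ < μ := by
    intro μ hμ k l hkl h
    by_contra hge
    push Not at hge
    have h1 := (le_nu_iff hμ.le).2 hge
    have h2 := hnul k l hkl
    have h3 := hale l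
    linarith
  have hcauchy : CauchySeq (fun k => (u k).1) := by
    rw [Metric.cauchySeq_iff']
    intro μ hμ
    obtain ⟨k, hk⟩ := hclose (μ ^ p.toReal) (by positivity)
    refine ⟨k, fun l hl => ?_⟩
    rw [dist_eq_norm]
    exact hsmall μ hμ k l hl hk
  obtain ⟨w, hw⟩ := cauchySeq_tendsto_of_complete hcauchy
  have hwz : Tendsto (fun k => z₀ + (u k).1) atTop (𝓝 (z₀ + w)) := hw.const_add z₀
  -- the limit is a trap
  have hnotrap := H w ((CT_closed N₁).mem_of_tendsto hw (Eventually.of_forall fun k => Tl_sub_CT _ (hGk k).1))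
    (le_of_tendsto ((nu_cont.tendsto w).comp hw) (Eventually.of_forall fun k => (hGk k).2.2.2.1))
    (le_of_tendsto_of_tendsto ((hf.tendsto _).comp hwz)
      ((((nu_cont.tendsto w).comp hw).const_mul η).const_add (f z₀))
      (Eventually.of_forall fun k => (hGk k).2.2.2.2.1))
    (fun P hP => le_of_tendsto_of_tendsto
      ((((hL P hP).cont.tendsto w).comp hw).abs)
      ((((nu_cont.tendsto w).comp hw).const_mul η).add_const τ)
      (Eventually.of_forall fun k => by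
        refine le_trans ((hGk k).2.2.2.2.2.1 P hP) ?_
        have : (0:ℝ) < (1 / 2) ^ k := by positivity
        have h2 : τ * (1 - (1 / 2) ^ k) ≤ τ := by nlinarith
        simp only [Function.comp]
        linarith))
  apply hnotrap
  refine ⟨η / 8, by positivity, L, hLf, hL, κ / 4, by positivity, ?_⟩
  intro ρ hρ
  by_contra hcon
  push Not at hcon
  set θ : ℝ := (1 / 2) ^ (1 / p.toReal) with hθ
  have hθ0 : 0 < θ := by positivity
  have hθ1 : θ < 1 := Real.rpow_lt_one (by norm_num) (by norm_num) (by positivity)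
  have hθp : θ ^ p.toReal = 1 / 2 := by
    rw [hθ, ← Real.rpow_mul (by norm_num), one_div_mul_cancel hpr.ne', Real.rpow_one]
  obtain ⟨K, hK⟩ := fin_unif hLf (fun P n => ∀ u v : LP p, ‖u‖ ≤ 2 → ‖v‖ ≤ 2 → |P u - P v| ≤ n * ‖u - v‖)
    (fun P N M hNM h u v hu hv => le_trans (h u v hu hv) (by gcongr)) (fun P hP => by
      obtain ⟨K, hK0, hK⟩ := (hL P hP).lip 2
      obtain ⟨n, hn⟩ := exists_nat_ge K
      exact ⟨n, fun u v hu hv => le_trans (hK u v hu hv) (by gcongr)⟩)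
  have hρp : 0 < ρ ^ p.toReal := by positivity
  set μ : ℝ := min (κ / 4) (min ((1 - θ) * ρ) (η / 8 * ρ ^ p.toReal / (K + 1))) with hμ
  have hμ0 : 0 < μ := by
    refine lt_min (by positivity) (lt_min (mul_pos (by linarith) hρ) (by positivity))
  have hμ1 : μ ≤ κ / 4 := min_le_left _ _
  have hμ2 : μ ≤ (1 - θ) * ρ := le_trans (min_le_right _ _) (min_le_left _ _)
  have hμ3 : μ ≤ η / 8 * ρ ^ p.toReal / (K + 1) := le_trans (min_le_right _ _) (min_le_right _ _)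
  obtain ⟨k, hk⟩ := hclose (min (ρ ^ p.toReal / 8) (min (μ ^ p.toReal) ((θ * ρ / 2) ^ p.toReal)))
    (lt_min (by positivity) (lt_min (by positivity) (by positivity)))
  have hk1 : a - nu (u k).1 < ρ ^ p.toReal / 8 := lt_of_lt_of_le hk (min_le_left _ _)
  have hk2 : a - nu (u k).1 < μ ^ p.toReal := lt_of_lt_of_le hk (le_trans (min_le_right _ _) (min_le_left _ _))
  have hk3 : a - nu (u k).1 < (θ * ρ / 2) ^ p.toReal := lt_of_lt_of_le hk (le_trans (min_le_right _ _) (min_le_right _ _))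
  obtain ⟨b, hb1, hb2, hb3, hb4, hb5⟩ := hcon (u k).2
  -- choose `l`
  have hlim : Tendsto (fun l => f (z₀ + (u l).1 + b)) atTop (𝓝 (f (z₀ + w + b))) :=
    (hf.tendsto _).comp (hwz.add_const b)
  obtain ⟨l, hl1, hl2⟩ := ((hlim.eventually_lt_const hb5).and (eventually_ge_atTop k)).exists
  have hfw : f (z₀ + w) ≤ f (z₀ + (u k).1) + η * (a - nu (u k).1) := by
    refine le_of_tendsto ((hf.tendsto _).comp hwz) ?_
    filter_upwards [eventually_ge_atTop k] with j hj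
    refine le_trans (hfl k j hj) ?_
    have := hale j
    gcongr
  have hd : ‖(u l).1 - (u k).1‖ < μ := hsmall μ hμ0 k l hl2 hk2
  have hnb : ρ ^ p.toReal ≤ nu b := (le_nu_iff hρ.le).2 hb2
  have hnorm : θ * ‖b‖ ≤ ‖(u l).1 - (u k).1 + b‖ := by
    have h1 : ‖b‖ ≤ ‖(u l).1 - (u k).1 + b‖ + ‖(u l).1 - (u k).1‖ := by
      have := norm_sub_le ((u l).1 - (u k).1 + b) ((u l).1 - (u k).1)
      rwa [add_sub_cancel_left] at this
    have h2 : (1 - θ) * ρ ≤ (1 - θ) * ‖b‖ := by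
      have : 0 ≤ 1 - θ := by linarith
      gcongr
    linarith
  have hnc' : 1 / 2 * nu b ≤ nu ((u l).1 - (u k).1 + b) := by
    have := (le_nu_iff (by positivity)).2 hnorm
    rwa [Real.mul_rpow hθ0.le (norm_nonneg _), hθp] at this
  have hmem : (u l).1 - (u k).1 + b ∈ Adm (u k) := by
    refine ⟨Tl_add (hdiff k l hl2) hb1, ?_, ?_, ?_⟩
    · have := norm_add_le ((u l).1 - (u k).1) b
      linarith
    · have h1 : z₀ + (u k).1 + ((u l).1 - (u k).1 + b) = z₀ + (u l).1 + b := by abel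
      rw [h1]
      have h2 : η * (a - nu (u k).1) ≤ η * (ρ ^ p.toReal / 8) := by gcongr
      nlinarith
    · intro P hP
      have h1 := hK P hP ((u l).1 - (u k).1 + b) b (by
        have := norm_add_le ((u l).1 - (u k).1) b
        linarith) (by linarith)
      rw [add_sub_cancel_right] at h1
      have h2 : (K:ℝ) * ‖(u l).1 - (u k).1‖ ≤ η / 8 * ρ ^ p.toReal := by
        calc (K:ℝ) * ‖(u l).1 - (u k).1‖ ≤ (K + 1) * (η / 8 * ρ ^ p.toReal / (K + 1)) := by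
              have : ‖(u l).1 - (u k).1‖ ≤ η / 8 * ρ ^ p.toReal / (K + 1) := le_trans hd.le hμ3
              gcongr
              linarith
          _ = η / 8 * ρ ^ p.toReal := by field_simp
      have h3 := hb4 P hP
      have h4 : |P ((u l).1 - (u k).1 + b)| ≤ η / 8 * nu b + η / 8 * ρ ^ p.toReal := by
        have h5 := abs_sub_abs_le_abs_sub (P ((u l).1 - (u k).1 + b)) (P b)
        linarith
      nlinarith
  have hfin := hcm k _ hmem
  have hck : ‖c k‖ < θ * ρ / 2 := by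
    by_contra hge
    push Not at hge
    have h1 := (le_nu_iff (by positivity)).2 hge
    have h2 : nu (u (k + 1)).1 = nu (u k).1 + nu (c k) := by
      rw [hcw k]; exact nu_add (hGk k).2.1 (Tl_sub_CT _ (hcA k).1)
    have h3 := hale (k + 1)
    linarith
  have h9 : θ * ρ ≤ θ * ‖b‖ := by gcongr
  linarith

end H312Gat
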