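import Mathlib
set_option linter.unusedVariables false
set_option linter.unusedSectionVars false
open Set Filter Topology

namespace H312Gat

/-- value at `t` of the polynomial with coefficients `q` -/
noncomputable def ev {m : ℕ} (q : Fin m → ℝ) (t : ℝ) : ℝ := ∑ i, q i * t ^ (i:ℕ)

theorem ev_def {m : ℕ} (q : Fin m → ℝ) (t : ℝ) : ev q t = ∑ i, q i * t ^ (i:ℕ) := rfl

theorem ev_cont {m : ℕ} : Continuous (fun x : (Fin m → ℝ) × ℝ => ev x.1 x.2) := by
  unfold ev
  fun_prop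

theorem ev_sub {m : ℕ} (q r : Fin m → ℝ) (t : ℝ) : ev (q - r) t = ev q t - ev r t := by
  simp only [ev_def, Pi.sub_apply, sub_mul, Finset.sum_sub_distrib]

theorem ev_uniq : ∀ (m : ℕ) (q : Fin m → ℝ) (C δ : ℝ), 0 < δ →
    (∀ t : ℝ, |t| ≤ δ → t ≠ 0 → |ev q t| ≤ C * |t| ^ m) → q = 0 := by
  intro m
  induction m with
  | zero => intro q C δ _ _; ext i; exact i.elim0
  | succ m ih =>
    intro q C δ hδ h
    have hq0 : q 0 = 0 := by
      have h1 : Tendsto (fun t : ℝ => ev q t) (𝓝[≠] 0) (𝓝 (ev q 0)) := by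
        have : Continuous (fun t : ℝ => ev q t) := by unfold ev; fun_prop
        exact (this.tendsto 0).mono_left nhdsWithin_le_nhds
      have h2 : Tendsto (fun t : ℝ => C * |t| ^ (m + 1)) (𝓝[≠] 0) (𝓝 0) := by
        have : Continuous (fun t : ℝ => C * |t| ^ (m + 1)) := by fun_prop
        have h3 := (this.tendsto 0).mono_left (nhdsWithin_le_nhds (s := {0}ᶜ))
        simpa using h3
      have h3 : Tendsto (fun t : ℝ => ev q t) (𝓝[≠] 0) (𝓝 0) := by
        refine squeeze_zero_norm' ?_ h2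
        have h4 : ∀ᶠ t : ℝ in 𝓝[≠] 0, |t| ≤ δ := by
          have : ∀ᶠ t : ℝ in 𝓝 0, |t| < δ := by
            have := (continuous_abs.tendsto (0:ℝ)).eventually_lt_const (by simpa using hδ : |(0:ℝ)| < δ)
            exact this
          exact (this.filter_mono nhdsWithin_le_nhds).mono fun t ht => ht.le
        filter_upwards [h4, self_mem_nhdsWithin] with t ht ht0
        exact h t ht ht0
      have h4 := tendsto_nhds_unique h1 h3
      have h5 : ev q 0 = q 0 := by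
        rw [ev_def, Fin.sum_univ_succ]; simp
      rw [← h5, h4]
    have htail : (fun i : Fin m => q i.succ) = 0 := by
      refine ih _ C δ hδ (fun t ht ht0 => ?_)
      have h1 := h t ht ht0
      have h2 : ev q t = t * ev (fun i : Fin m => q i.succ) t := by
        rw [ev_def, Fin.sum_univ_succ, hq0, ev_def, Finset.mul_sum]
        simp only [zero_mul, zero_add, Fin.val_succ]
        refine Finset.sum_congr rfl fun i _ => ?_
        rw [pow_succ]; ring
      rw [h2, abs_mul, pow_succ] at h1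
      have h3 : 0 < |t| := abs_pos.2 ht0
      refine le_of_mul_le_mul_left ?_ h3
      linarith
    ext i
    refine Fin.cases hq0 (fun j => ?_) i
    exact congrFun htail j

theorem ev_extrap (m : ℕ) (s : ℝ) (hs : 0 < s) : ∃ C : ℝ, 0 ≤ C ∧ ∀ (q : Fin m → ℝ) (ε : ℝ),
    (∀ t : ℝ, |t| ≤ s → |ev q t| ≤ ε) → |ev q 1| ≤ C * ε := by
  classical
  let v : Fin m → ℝ := fun i => s * ((i:ℕ) + 1) / (m + 1)
  have hv : Function.Injective v := by
    intro i j hij
    simp only [v] at hij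
    have hm : ((m:ℝ) + 1) ≠ 0 := by positivity
    have h1 : s * ((i:ℕ) + 1) = s * (((j:ℕ):ℝ) + 1) := by
      rw [div_eq_div_iff hm hm] at hij
      exact mul_right_cancel₀ hm hij
    have h2 : ((i:ℕ):ℝ) + 1 = ((j:ℕ):ℝ) + 1 := mul_left_cancel₀ hs.ne' h1
    have h3 : (i:ℕ) = (j:ℕ) := by exact_mod_cast (add_right_cancel h2)
    exact Fin.ext h3
  refine ⟨∑ i, |(Lagrange.basis Finset.univ v i).eval 1|, by positivity, fun q ε h => ?_⟩
  let P : Polynomial ℝ := ∑ i : Fin m, Polynomial.C (q i) * Polynomial.X ^ (i:ℕ)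
  have hPe : ∀ t, P.eval t = ev q t := by
    intro t
    simp only [P, Polynomial.eval_finsetSum, Polynomial.eval_mul, Polynomial.eval_C, Polynomial.eval_pow,
      Polynomial.eval_X, ev_def]
  have hdeg : P.degree < (Finset.univ : Finset (Fin m)).card := by
    rw [Finset.card_univ, Fintype.card_fin]
    rw [← Polynomial.mem_degreeLT]
    refine Submodule.sum_mem _ fun i _ => ?_
    rw [Polynomial.mem_degreeLT]
    refine lt_of_le_of_lt (Polynomial.degree_C_mul_X_pow_le _ _) ?_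
    exact_mod_cast i.2
  have hint := Lagrange.eq_interpolate (v := v) (s := Finset.univ) (hv.injOn) hdeg
  have h1 : P.eval 1 = ∑ i, P.eval (v i) * (Lagrange.basis Finset.univ v i).eval 1 := by
    conv_lhs => rw [hint]
    rw [Lagrange.interpolate_apply, Polynomial.eval_finsetSum]
    refine Finset.sum_congr rfl fun i _ => ?_
    rw [Polynomial.eval_mul, Polynomial.eval_C]
  rw [← hPe, h1, Finset.sum_mul]
  refine le_trans (Finset.abs_sum_le_sum_abs _ _) (Finset.sum_le_sum fun i _ => ?_)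
  rw [abs_mul, mul_comm]
  refine mul_le_mul_of_nonneg_left ?_ (abs_nonneg _)
  rw [hPe]
  refine h _ ?_
  simp only [v]
  rw [abs_of_nonneg (by positivity)]
  have h2 : ((i:ℕ):ℝ) + 1 ≤ m + 1 := by
    have : (i:ℕ) < m := i.2
    have : ((i:ℕ):ℝ) < m := by exact_mod_cast this
    linarith
  rw [div_le_iff₀ (by positivity)]
  gcongr

variable {X : Type*} [NormedAddCommGroup X] [NormedSpace ℝ X]

/-- the closed sets of the Baire argument -/
def DD (f : X → ℝ) (m n : ℕ) : Set (X × X) :=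
  {y | ∃ q : Fin m → ℝ, (∀ i, |q i| ≤ n + 1) ∧ ∀ t : ℝ, |t| ≤ 1 / (n + 1) →
    |f (y.1 + t • y.2) - ev q t| ≤ (n + 1) * |t| ^ m}

theorem DD_closed {f : X → ℝ} (hf : Continuous f) (m n : ℕ) : IsClosed (DD f m n) := by
  apply IsSeqClosed.isClosed
  intro y y0 hy hlim
  choose q hq1 hq2 using hy
  have hcomp : IsCompact (Set.pi Set.univ (fun _ : Fin m => Icc (-((n:ℝ) + 1)) (n + 1))) :=
    isCompact_univ_pi (fun _ => isCompact_Icc)
  obtain ⟨a, ha, φ, hφ, hφl⟩ := hcomp.tendsto_subseq (x := q) (fun k i _ => abs_le.1 (hq1 k i))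
  refine ⟨a, fun i => abs_le.2 (ha i (mem_univ i)), fun t ht => ?_⟩
  have hyφ : Tendsto (fun k => y (φ k)) atTop (𝓝 y0) := hlim.comp hφ.tendsto_atTop
  have h1 : Tendsto (fun k => f ((y (φ k)).1 + t • (y (φ k)).2)) atTop (𝓝 (f (y0.1 + t • y0.2))) := by
    have hc : Continuous (fun z : X × X => f (z.1 + t • z.2)) := by fun_prop
    exact (hc.tendsto y0).comp hyφ
  have h2 : Tendsto (fun k => ev (q (φ k)) t) atTop (𝓝 (ev a t)) := by
    have hc : Continuous (fun z : Fin m → ℝ => ev z t) := by unfold ev; fun_prop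
    exact (hc.tendsto a).comp hφl
  exact le_of_tendsto (h1.sub h2).abs (Eventually.of_forall fun k => hq2 (φ k) t ht)

/-- the uniform cone lemma -/
theorem cone [CompleteSpace X] {f : X → ℝ} (hf : Continuous f) {m : ℕ} {F : Set X} (hFc : IsClosed F)
    (hFne : F.Nonempty) (T : X → X → ℝ)
    (E1 : ∀ z ∈ F, ∀ a b, ∃ q : Fin m → ℝ, ∀ l : ℝ, T z (a + l • b) = ev q l)
    (E2 : ∀ z ∈ F, ∀ h, ∃ C : ℝ, ∃ δ > 0, ∀ t : ℝ, |t| ≤ δ → |f (z + t • h) - T z (t • h)| ≤ C * |t| ^ m) :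
    ∃ x₀ ∈ F, ∃ h₀ : X, ∃ r > 0, ∃ n : ℕ, ∀ z ∈ F, dist z x₀ < r → ∀ h, ‖h - h₀‖ < r →
      ∀ t : ℝ, |t| ≤ 1 / (n + 1) → |f (z + t • h) - T z (t • h)| ≤ (n + 1) * |t| ^ m := by
  have : CompleteSpace F := hFc.completeSpace_coe
  have : Nonempty F := hFne.to_subtype
  have hcl : ∀ n : ℕ, IsClosed ((fun y : F × X => ((y.1 : X), y.2)) ⁻¹' (DD f m n)) := fun n =>
    (DD_closed hf m n).preimage (by fun_prop)
  have hcov : ⋃ n : ℕ, ((fun y : F × X => ((y.1 : X), y.2)) ⁻¹' (DD f m n)) = univ := by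
    rw [eq_univ_iff_forall]
    rintro ⟨⟨z, hz⟩, h⟩
    rw [mem_iUnion]
    obtain ⟨q, hq⟩ := E1 z hz 0 h
    obtain ⟨C, δ, hδ, hC⟩ := E2 z hz h
    obtain ⟨n, hn⟩ := exists_nat_ge (max C (max (1 / δ) (∑ i, |q i|)))
    refine ⟨n, q, fun i => ?_, fun t ht => ?_⟩
    · have h1 : |q i| ≤ ∑ i, |q i| := Finset.single_le_sum (f := fun i => |q i|) (fun i _ => abs_nonneg _) (Finset.mem_univ i)
      have h2 := le_trans (le_trans (le_max_right _ _) (le_max_right _ _)) hn
      linarith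
    · have h1 : 1 / δ ≤ n := le_trans (le_trans (le_max_left _ _) (le_max_right _ _)) hn
      have h2 : C ≤ n := le_trans (le_max_left _ _) hn
      have h3 : |t| ≤ δ := by
        refine le_trans ht ?_
        rw [div_le_iff₀ (by positivity)]
        rw [div_le_iff₀ hδ] at h1
        nlinarith
      have h4 := hC t h3
      have h5 := hq t
      rw [zero_add] at h5
      simp only
      rw [← h5]
      refine le_trans h4 ?_
      gcongr
      linarith
  obtain ⟨n, ⟨x₀, h₀⟩, hy⟩ := nonempty_interior_of_iUnion_of_closed hcl hcov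
  rw [mem_interior_iff_mem_nhds, Metric.mem_nhds_iff] at hy
  obtain ⟨r, hr, hball⟩ := hy
  refine ⟨x₀, x₀.2, h₀, r, hr, n, fun z hz hzx h hh t ht => ?_⟩
  have hmem : ((⟨z, hz⟩ : F), h) ∈ Metric.ball (x₀, h₀) r := by
    rw [Metric.mem_ball, Prod.dist_eq]
    refine max_lt ?_ ?_
    · exact hzx
    · rw [dist_eq_norm]; exact hh
  obtain ⟨q, hq1, hq2⟩ := hball hmem
  simp only at hq2
  obtain ⟨q', hq'⟩ := E1 z hz 0 h
  obtain ⟨C, δ, hδ, hC⟩ := E2 z hz h
  have hqq : q = q' := by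
    have h0 : q - q' = 0 := by
      refine ev_uniq m (q - q') ((n + 1) + C) (min δ (1 / (n + 1))) (lt_min hδ (by positivity)) (fun s hs _ => ?_)
      have h1 := hq2 s (le_trans hs (min_le_right _ _))
      have h2 := hC s (le_trans hs (min_le_left _ _))
      have h3 := hq' s
      rw [zero_add] at h3
      rw [h3] at h2
      rw [ev_sub]
      have h4 : |ev q s - ev q' s| ≤ |f (z + s • h) - ev q s| + |f (z + s • h) - ev q' s| := by
        have := abs_sub_le (ev q s) (f (z + s • h)) (ev q' s)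
        rwa [abs_sub_comm (ev q s) (f (z + s • h))] at this
      calc |ev q s - ev q' s| ≤ _ := h4
        _ ≤ (n + 1) * |s| ^ m + C * |s| ^ m := add_le_add h1 h2
        _ = ((n + 1) + C) * |s| ^ m := by ring
    exact sub_eq_zero.1 h0
  have h3 := hq' t
  rw [zero_add] at h3
  rw [h3, ← hqq]
  exact hq2 t ht

/-- the Whitney estimate along the uniform cone -/
theorem whitney {f : X → ℝ} {m : ℕ} (hm : 1 ≤ m) {F : Set X} (T : X → X → ℝ)
    (E1 : ∀ z ∈ F, ∀ a b, ∃ q : Fin m → ℝ, ∀ l : ℝ, T z (a + l • b) = ev q l)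
    {x₀ h₀ : X} {r : ℝ} (hr : 0 < r) {n : ℕ}
    (hcone : ∀ z ∈ F, dist z x₀ < r → ∀ h, ‖h - h₀‖ < r →
      ∀ t : ℝ, |t| ≤ 1 / (n + 1) → |f (z + t • h) - T z (t • h)| ≤ (n + 1) * |t| ^ m) :
    ∃ C : ℝ, 0 ≤ C ∧ ∀ x ∈ F, dist x x₀ < r → ∀ z ∈ F, dist z x₀ < r → 4 * ‖z - x‖ / r ≤ 1 / (n + 1) →
      |f z - T x (z - x)| ≤ C * ‖z - x‖ ^ m := by
  set Γ : ℝ := 1 + 4 * ‖h₀‖ / r with hΓ
  have hΓ0 : 0 < Γ := by positivity
  obtain ⟨C, hC0, hC⟩ := ev_extrap m (1 / Γ) (by positivity)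
  refine ⟨C * (2 * (n + 1) * (4 / r) ^ m), by positivity, fun x hx hxx z hz hzx hsm => ?_⟩
  have hT0 : ∀ y ∈ F, dist y x₀ < r → T y 0 = f y := by
    intro y hy hyx
    have h1 := hcone y hy hyx h₀ (by simpa using hr) 0 (by simp; positivity)
    rw [abs_zero, zero_pow (by omega), mul_zero, zero_smul, add_zero] at h1
    have := abs_nonpos_iff.1 h1
    linarith
  rcases eq_or_lt_of_le (norm_nonneg (z - x)) with h0 | h0
  · have h1 : z = x := sub_eq_zero.1 (norm_eq_zero.1 h0.symm)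
    rw [h1, sub_self, hT0 x hx hxx, sub_self, abs_zero]
    positivity
  set v := z - x with hv
  set t : ℝ := 4 * ‖v‖ / r with ht
  have ht0 : 0 < t := by positivity
  obtain ⟨q1, hq1⟩ := E1 z hz (t • h₀ - v) (v - t • h₀)
  obtain ⟨q2, hq2⟩ := E1 x hx (t • h₀) (v - t • h₀)
  have hg : ∀ l : ℝ, |l| ≤ 1 / Γ → |ev (q1 - q2) l| ≤ 2 * (n + 1) * t ^ m := by
    intro l hl
    rw [ev_sub, ← hq1, ← hq2]
    set k : X := h₀ + l • (t⁻¹ • v - h₀) with hk
    have hk1 : t • k = t • h₀ + l • (v - t • h₀) := by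
      rw [hk, smul_add, smul_comm t l, smul_sub, smul_smul, mul_inv_cancel₀ ht0.ne', one_smul]
    have hk2 : t • (k - t⁻¹ • v) = t • h₀ - v + l • (v - t • h₀) := by
      rw [smul_sub, hk1, smul_smul, mul_inv_cancel₀ ht0.ne', one_smul]; abel
    have hn1 : ‖t⁻¹ • v‖ = r / 4 := by
      rw [norm_smul, Real.norm_eq_abs, abs_of_pos (inv_pos.2 ht0), ht]
      field_simp
    have hn2 : ‖l • (t⁻¹ • v - h₀)‖ ≤ r / 4 := by
      rw [norm_smul, Real.norm_eq_abs]
      have h1 : ‖t⁻¹ • v - h₀‖ ≤ r / 4 * Γ := by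
        have h2 := norm_sub_le (t⁻¹ • v) h₀
        rw [hn1] at h2
        have h3 : r / 4 * Γ = r / 4 + ‖h₀‖ := by rw [hΓ]; field_simp
        rw [h3]; exact h2
      calc |l| * ‖t⁻¹ • v - h₀‖ ≤ (1 / Γ) * (r / 4 * Γ) := by gcongr
        _ = r / 4 := by field_simp
    have hb1 : ‖k - h₀‖ < r := by
      rw [hk, add_sub_cancel_left]
      linarith
    have hb2 : ‖k - t⁻¹ • v - h₀‖ < r := by
      have h1 : k - t⁻¹ • v - h₀ = l • (t⁻¹ • v - h₀) - t⁻¹ • v := by rw [hk]; abel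
      rw [h1]
      have := norm_sub_le (l • (t⁻¹ • v - h₀)) (t⁻¹ • v)
      linarith
    have habs : |t| ≤ 1 / (n + 1) := by rw [abs_of_pos ht0]; exact hsm
    have e1 := hcone x hx hxx k hb1 t habs
    have e2 := hcone z hz hzx (k - t⁻¹ • v) hb2 t habs
    rw [abs_of_pos ht0] at e1 e2
    have e3 : z + t • (k - t⁻¹ • v) = x + t • k := by
      rw [smul_sub, smul_smul, mul_inv_cancel₀ ht0.ne', one_smul, hv]; abel
    rw [e3, hk2] at e2
    rw [hk1] at e1 e2
    have e4 := abs_sub_le (T z (t • h₀ - v + l • (v - t • h₀))) (f (x + (t • h₀ + l • (v - t • h₀)))) (T x (t • h₀ + l • (v - t • h₀)))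
    rw [abs_sub_comm (T z _) (f _)] at e4
    linarith
  have h1 := hC (q1 - q2) _ hg
  rw [ev_sub, ← hq1, ← hq2] at h1
  have h2 : t • h₀ - v + (1:ℝ) • (v - t • h₀) = 0 := by rw [one_smul]; abel
  have h3 : t • h₀ + (1:ℝ) • (v - t • h₀) = v := by rw [one_smul]; abel
  rw [h2, h3, hT0 z hz hzx] at h1
  refine le_trans h1 (le_of_eq ?_)
  rw [ht, mul_div_right_comm, mul_pow]
  ring

end H312Gat
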