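import Pool.Agent.H312Gat.A4
import Pool.Agent.H312Gat.A5
set_option linter.unusedVariables false
set_option linter.unusedSectionVars false
open Set Filter Topology
open scoped ENNReal

namespace H312Gat

variable {p : ℝ≥0∞} [Fact (1 ≤ p)] [hpt : Fact (p ≠ ⊤)]

set_option maxHeartbeats 4000000 in
theorem no_trap {f : LP p → ℝ} (hf : Continuous f) {m : ℕ} (hm : p.toReal < m) {O : Set (LP p)}
    (hO : IsOpen O) (T : LP p → LP p → ℝ)
    (E1 : ∀ z ∈ O, ∀ a b, ∃ q : Fin m → ℝ, ∀ l : ℝ, T z (a + l • b) = ev q l)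
    (E2 : ∀ z ∈ O, ∀ h, ∃ C : ℝ, ∃ δ > 0, ∀ t : ℝ, |t| ≤ δ → |f (z + t • h) - T z (t • h)| ≤ C * |t| ^ m)
    (E3 : ∀ z ∈ O, ∃ S P : LP p → ℝ, TSm S ∧ Cub P ∧ ∀ u, T z u = f z + S u + P u) :
    ∀ x ∈ O, ¬ Trap f x := by
  intro x₁ hx₁ htr₁
  have hpr := pr_pos (p := p)
  have hpr1 := pr1 (p := p)
  have hm1 : 1 ≤ m := by
    have : (0:ℝ) < m := lt_trans hpr hm
    exact_mod_cast this
  obtain ⟨r₁, hr₁, hballO⟩ : ∃ r₁ > 0, Metric.closedBall x₁ r₁ ⊆ O := by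
    obtain ⟨r, hr, h⟩ := Metric.isOpen_iff.1 hO x₁ hx₁
    refine ⟨r / 2, by positivity, fun y hy => h ?_⟩
    rw [Metric.mem_closedBall] at hy
    rw [Metric.mem_ball]
    linarith
  set F : Set (LP p) := closure ({x | Trap f x} ∩ Metric.ball x₁ r₁) with hF
  have hFO : F ⊆ O := by
    refine Subset.trans ?_ hballO
    exact closure_minimal (inter_subset_right.trans Metric.ball_subset_closedBall) Metric.isClosed_closedBall
  have hFne : F.Nonempty := ⟨x₁, subset_closure ⟨htr₁, Metric.mem_ball_self hr₁⟩⟩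
  obtain ⟨x₀, hx₀, h₀, r, hr, n, hcone⟩ := cone hf (m := m) isClosed_closure hFne T
    (fun z hz => E1 z (hFO hz)) (fun z hz => E2 z (hFO hz))
  obtain ⟨CW, hCW0, hW⟩ := whitney (f := f) hm1 T (fun z hz => E1 z (hFO hz)) hr hcone
  obtain ⟨x, ⟨hxt, hxb⟩, hxx⟩ := Metric.mem_closure_iff.1 hx₀ r hr
  rw [dist_comm] at hxx
  have hxF : x ∈ F := subset_closure ⟨hxt, hxb⟩
  obtain ⟨ε, hε, L, hLf, hL, δ, hδ, htrap⟩ := hxt
  obtain ⟨Sx, Px, hSx, hPx, hTx⟩ := E3 x (hFO hxF)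
  rw [Metric.mem_ball] at hxb
  -- choice of R
  have hlimR : Tendsto (fun R : ℝ => CW * R ^ ((m:ℝ) - p.toReal)) (𝓝[>] 0) (𝓝 0) := by
    have hc : Continuous (fun R : ℝ => CW * R ^ ((m:ℝ) - p.toReal)) :=
      continuous_const.mul (Real.continuous_rpow_const (by linarith))
    have h1 := (hc.tendsto 0).mono_left (nhdsWithin_le_nhds (s := Ioi 0))
    simpa [Real.zero_rpow (by linarith : (m:ℝ) - p.toReal ≠ 0)] using h1
  have hev : ∀ᶠ R : ℝ in 𝓝[>] 0, (CW * R ^ ((m:ℝ) - p.toReal) < ε / 4 ∧ R < 1) ∧ (R < δ ∧ R < r₁ - dist x x₁) ∧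
      (R < r - dist x x₀ ∧ R < r / (4 * (n + 1))) := by
    have hlt : ∀ a : ℝ, 0 < a → ∀ᶠ R : ℝ in 𝓝[>] 0, R < a := fun a ha =>
      (eventually_lt_nhds ha).filter_mono nhdsWithin_le_nhds
    exact ((hlimR.eventually_lt_const (by positivity)).and (hlt 1 one_pos)).and
      (((hlt δ hδ).and (hlt _ (by linarith))).and ((hlt _ (by linarith)).and (hlt _ (by positivity))))
  obtain ⟨R, ⟨⟨hR1, hR2⟩, ⟨hR3, hR4⟩, ⟨hR5, hR6⟩⟩, hR0⟩ := (hev.and self_mem_nhdsWithin).exists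
  have hRW : ∀ v : LP p, 0 < ‖v‖ → ‖v‖ ≤ R → CW * ‖v‖ ^ m ≤ ε / 4 * nu v := by
    intro v hv0 hv
    have h1 : ‖v‖ ^ m = ‖v‖ ^ ((m:ℝ) - p.toReal) * nu v := by
      rw [nu_def, ← Real.rpow_add hv0, sub_add_cancel, Real.rpow_natCast]
    have h2 : ‖v‖ ^ ((m:ℝ) - p.toReal) ≤ R ^ ((m:ℝ) - p.toReal) :=
      Real.rpow_le_rpow (norm_nonneg _) hv (by linarith)
    have h3 := nu_nonneg v
    rw [h1]
    calc CW * (‖v‖ ^ ((m:ℝ) - p.toReal) * nu v) ≤ CW * (R ^ ((m:ℝ) - p.toReal) * nu v) := by gcongr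
      _ = (CW * R ^ ((m:ℝ) - p.toReal)) * nu v := by ring
      _ ≤ ε / 4 * nu v := by gcongr
  set S : ℝ := (R / 4) ^ p.toReal with hS
  have hS0 : 0 < S := by positivity
  obtain ⟨ρ, hρ0, hρR, hρf⟩ : ∃ ρ : ℝ, 0 < ρ ∧ ρ ≤ R / 4 ∧ ∀ b : LP p, ‖b‖ ≤ ρ → f (x + b) ≤ f x + ε / 4 * S := by
    obtain ⟨s, hs, h⟩ := Metric.continuous_iff.1 hf x (ε / 4 * S) (by positivity)
    refine ⟨min (s / 2) (R / 4), lt_min (by positivity) (by positivity), min_le_right _ _, fun b hb => ?_⟩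
    have h1 : dist (x + b) x < s := by
      rw [dist_eq_norm, add_sub_cancel_left]
      have := le_trans hb (min_le_left _ _)
      linarith
    have h2 := h _ h1
    rw [Real.dist_eq] at h2
    have := le_abs_self (f (x + b) - f x)
    linarith
  have hρp : 0 < ρ ^ p.toReal := by positivity
  obtain ⟨Na, hNa⟩ := htrap (ρ / 2) (by positivity)
  obtain ⟨Nb, hNb⟩ := hSx (ε / 16) (by positivity) ρ hρ0
  set N₀ := max Na Nb with hN₀
  set L' : Set (LP p → ℝ) := insert Px L with hL'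
  have hL'f : L'.Finite := hLf.insert Px
  have hL'c : ∀ P ∈ L', Cub P := by
    intro P hP
    rcases hP with rfl | hP
    · exact hPx
    · exact hL P hP
  obtain ⟨u, hu1, hu2, hu3⟩ := far_unit hL'f hL'c N₀ (τ := ε / 16) (by positivity)
  set b₀ : LP p := ρ • u with hb₀
  have hb₀T : b₀ ∈ Tl N₀ := Tl_smul _ hu1
  have hb₀n : ‖b₀‖ = ρ := by rw [hb₀, norm_smul, hu2, mul_one, Real.norm_eq_abs, abs_of_pos hρ0]
  have hb₀nu : nu b₀ = ρ ^ p.toReal := by rw [nu_def, hb₀n]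
  set τ : ℝ := ε / 16 * ρ ^ p.toReal with hτ
  have hτ0 : 0 < τ := by positivity
  have hb₀P : ∀ P ∈ L', |P b₀| ≤ τ := by
    intro P hP
    rw [hb₀, (hL'c P hP).hom ρ hρ0.le, abs_mul, abs_of_pos hρp, hτ, mul_comm (ε / 16)]
    have := hu3 P hP
    gcongr
  obtain ⟨M₁, _, hM₁⟩ := Tl_Blw hb₀T
  obtain ⟨N₂, hN₂⟩ := fin_unif hL'f
      (fun P N => ∀ c ∈ CT N, ‖c‖ ≤ 1 → |P (b₀ + c) - P b₀ - P c| ≤ τ)
      (fun P N M hNM h c hc => h c (CT_mono hNM hc)) (fun P hP => (hL'c P hP).cr b₀ τ hτ0)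
  set N₁ := max N₀ (max M₁ N₂) with hN₁
  have h01 : N₀ ≤ N₁ := le_max_left _ _
  have hM1 : M₁ ≤ N₁ := le_trans (le_max_left _ _) (le_max_right _ _)
  have h21 : N₂ ≤ N₁ := le_trans (le_max_right _ _) (le_max_right _ _)
  -- Claim A
  have claimA : ∀ w ∈ CT N₁, ‖w‖ ≤ R / 2 → (∀ P ∈ L', |P w| ≤ ε / 16 * nu w + τ) →
      b₀ + w ∈ CT N₀ ∧ ρ ≤ ‖b₀ + w‖ ∧ ‖b₀ + w‖ ≤ R ∧ nu (b₀ + w) = ρ ^ p.toReal + nu w ∧
      (∀ P ∈ L', |P (b₀ + w)| ≤ 3 * ε / 16 * nu (b₀ + w)) ∧ f x + ε * nu (b₀ + w) ≤ f (x + (b₀ + w)) := by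
    intro w hw hwR hwP
    have hv1 : b₀ + w ∈ CT N₀ := CT_add (Tl_sub_CT _ hb₀T) (CT_mono h01 hw)
    have hnv : nu (b₀ + w) = ρ ^ p.toReal + nu w := by
      rw [nu_add hM₁ (CT_mono hM1 hw), hb₀nu]
    have hnw := nu_nonneg w
    have hv2 : ρ ≤ ‖b₀ + w‖ := (le_nu_iff hρ0.le).1 (by rw [hnv]; linarith)
    have hv3 : ‖b₀ + w‖ ≤ R := by
      have := norm_add_le b₀ w
      rw [hb₀n] at this
      linarith
    have hv5 : ∀ P ∈ L', |P (b₀ + w)| ≤ 3 * ε / 16 * nu (b₀ + w) := by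
      intro P hP
      have e1 := hN₂ P hP w (CT_mono h21 hw) (by linarith)
      have e2 := hb₀P P hP
      have e3 := hwP P hP
      have e4 : 3 * ε / 16 * nu (b₀ + w) = 3 * τ + 3 * (ε / 16 * nu w) := by rw [hnv, hτ]; ring
      have e5 : 0 ≤ ε / 16 * nu w := by positivity
      rw [e4]
      rw [abs_le] at e1 e2 e3 ⊢
      constructor <;> linarith [e1.1, e1.2, e2.1, e2.2, e3.1, e3.2]
    refine ⟨hv1, hv2, hv3, hnv, hv5, ?_⟩
    set v := b₀ + w with hv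
    have hnv0 : 0 < nu v := by rw [hnv]; linarith
    have hU : IsOpen {c : LP p | (ρ / 2 < ‖c‖ ∧ ‖c‖ < δ) ∧ c ∈ ⋂ P ∈ L, {c : LP p | |P c| < ε * nu c}} := by
      refine IsOpen.inter ((isOpen_lt continuous_const continuous_norm).inter (isOpen_lt continuous_norm continuous_const)) ?_
      exact hLf.isOpen_biInter (fun P hP => isOpen_lt (hL P hP).cont.abs (continuous_const.mul nu_cont))
    have hvU : v ∈ {c : LP p | (ρ / 2 < ‖c‖ ∧ ‖c‖ < δ) ∧ c ∈ ⋂ P ∈ L, {c : LP p | |P c| < ε * nu c}} := by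
      refine ⟨⟨by linarith, by linarith⟩, ?_⟩
      rw [mem_iInter₂]
      intro P hP
      have := hv5 P (mem_insert_of_mem _ hP)
      show |P v| < ε * nu v
      nlinarith
    have hcl : IsClosed {c : LP p | f x + ε * nu c ≤ f (x + c)} :=
      isClosed_le (continuous_const.add (continuous_const.mul nu_cont)) (hf.comp (continuous_const.add continuous_id))
    have hsub : {c : LP p | (ρ / 2 < ‖c‖ ∧ ‖c‖ < δ) ∧ c ∈ ⋂ P ∈ L, {c : LP p | |P c| < ε * nu c}} ∩ Tl N₀ ⊆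
        {c : LP p | f x + ε * nu c ≤ f (x + c)} := by
      rintro c ⟨⟨⟨c1, c2⟩, c3⟩, c4⟩
      rw [mem_iInter₂] at c3
      exact hNa c (Tl_mono (le_max_left _ _) c4) c1.le c2.le (fun P hP => le_of_lt (c3 P hP))
    exact closure_minimal hsub hcl (hU.inter_closure ⟨hvU, Tl_dense _ hv1⟩)
  -- Claim B
  have claimB : ∀ w ∈ CT N₁, ‖w‖ ≤ R / 2 → (∀ P ∈ L', |P w| ≤ ε / 16 * nu w + τ) →
      ¬ Trap f (x + b₀ + w) := by
    intro w hw hwR hwP htr
    obtain ⟨v1, v2, v3, v4, v5, v6⟩ := claimA w hw hwR hwP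
    rw [add_assoc] at htr
    have hvpos : 0 < ‖b₀ + w‖ := lt_of_lt_of_le hρ0 v2
    have hmem : x + (b₀ + w) ∈ F := by
      refine subset_closure ⟨htr, ?_⟩
      rw [Metric.mem_ball]
      have := dist_triangle (x + (b₀ + w)) x x₁
      rw [dist_self_add_left] at this
      linarith
    have hd : dist (x + (b₀ + w)) x₀ < r := by
      have := dist_triangle (x + (b₀ + w)) x x₀
      rw [dist_self_add_left] at this
      linarith
    have h1 := hW x hxF hxx (x + (b₀ + w)) hmem hd (by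
      rw [add_sub_cancel_left, div_le_div_iff₀ hr (by positivity), one_mul]
      have h2 : ‖b₀ + w‖ ≤ r / (4 * (n + 1)) := by linarith
      rw [le_div_iff₀ (by positivity)] at h2
      linarith)
    rw [add_sub_cancel_left] at h1
    have h2 := hRW _ hvpos v3
    have h3 := hNb _ (CT_mono (le_max_right _ _) v1) v2 (by linarith)
    have h4 := v5 Px (mem_insert _ _)
    rw [hTx] at h1
    have h5 := nu_pos hvpos
    rw [abs_le] at h1 h3 h4
    nlinarith [h1.1, h1.2, h3.1, h3.2, h4.1, h4.2]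
  -- the walk
  have hwalk := walk hf (x + b₀) N₁ (η := ε / 16) (κ := R / 4) (τ := τ) (S := S) (by positivity) (by positivity)
    (by linarith) hτ0 hS0.le hL'f hL'c (fun w hw hwS _ hwP => claimB w hw (by
      have : ‖w‖ ≤ R / 4 := (nu_le_iff (by positivity)).1 hwS
      linarith) hwP)
  obtain ⟨w, hw1, hw2, hw3, hw4, hw5⟩ := hwalk
  have hwR : ‖w‖ ≤ R / 2 := by
    refine (nu_le_iff (by positivity)).1 ?_
    have h2 : (R / 2) ^ p.toReal = 2 ^ p.toReal * (R / 4) ^ p.toReal := by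
      rw [← Real.mul_rpow (by norm_num) (by positivity)]; congr 1; ring
    have h3 : (2:ℝ) ≤ 2 ^ p.toReal := by
      calc (2:ℝ) = 2 ^ (1:ℝ) := (Real.rpow_one 2).symm
        _ ≤ 2 ^ p.toReal := Real.rpow_le_rpow_of_exponent_le (by norm_num) hpr1
    rw [h2]
    nlinarith
  obtain ⟨v1, v2, v3, v4, v5, v6⟩ := claimA w (Tl_sub_CT _ hw1) hwR hw5
  rw [← add_assoc] at v6
  have h7 := hρf b₀ (by rw [hb₀n])
  rw [v4] at v6
  nlinarith

end H312Gat
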