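import Pool.Agent.H312Gat.A6
set_option linter.unusedVariables false
set_option linter.unusedSectionVars false
open Set Filter Topology
open scoped ENNReal

namespace H312Gat

/-! ### Taylor expansion along a line -/

theorem taylor_line : ∀ (m : ℕ), 1 ≤ m → ∀ (φ : ℕ → ℝ → ℝ) (δ : ℝ), 0 < δ →
    (∀ j < m, ∀ t, |t| < δ → HasDerivAt (φ j) (φ (j + 1) t) t) →
    ∃ C : ℝ, 0 ≤ C ∧ ∃ δ' > 0, ∀ t, |t| ≤ δ' →
      |φ 0 t - ∑ j ∈ Finset.range m, (1 / (j.factorial : ℝ)) * (φ j 0 * t ^ j)| ≤ C * |t| ^ m := by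
  intro m hm
  induction m, hm using Nat.le_induction with
  | base =>
    intro φ δ hδ H
    have h1 := (H 0 (by norm_num) 0 (by simpa using hδ)).isBigO_sub
    rw [Asymptotics.isBigO_iff] at h1
    obtain ⟨C, hC⟩ := h1
    rw [Metric.eventually_nhds_iff] at hC
    obtain ⟨δ', hδ', h⟩ := hC
    refine ⟨max C 0, le_max_right _ _, δ' / 2, by positivity, fun t ht => ?_⟩
    have h2 := h (y := t) (by rw [Real.dist_eq, sub_zero]; linarith)
    simp only [Finset.sum_range_one, Nat.factorial_zero, Nat.cast_one, div_one, pow_zero, mul_one, one_mul, pow_one]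
    rw [Real.norm_eq_abs, Real.norm_eq_abs, sub_zero] at h2
    refine le_trans h2 ?_
    have := abs_nonneg t
    gcongr
    exact le_max_left _ _
  | succ m hm ih =>
    intro φ δ hδ H
    obtain ⟨C, hC0, δ', hδ', hC⟩ := ih (fun j => φ (j + 1)) δ hδ (fun j hj t ht => H (j + 1) (by omega) t ht)
    refine ⟨C, hC0, min δ' (δ / 2), lt_min hδ' (by positivity), fun s hs => ?_⟩
    have hs1 : |s| ≤ δ' := le_trans hs (min_le_left _ _)
    have hs2 : |s| ≤ δ / 2 := le_trans hs (min_le_right _ _)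
    set Rm : ℝ → ℝ := fun t => φ 0 t - ∑ j ∈ Finset.range (m + 1), (1 / (j.factorial : ℝ)) * (φ j 0 * t ^ j) with hRm
    have hR0 : Rm 0 = 0 := by
      simp only [hRm]
      rw [Finset.sum_range_succ']
      simp
    have hder : ∀ t, |t| < δ → HasDerivAt Rm (φ 1 t - ∑ j ∈ Finset.range m, (1 / (j.factorial : ℝ)) * (φ (j + 1) 0 * t ^ j)) t := by
      intro t ht
      have h1 := H 0 (by omega) t ht
      have h2 : HasDerivAt (fun t : ℝ => ∑ j ∈ Finset.range (m + 1), (1 / (j.factorial : ℝ)) * (φ j 0 * t ^ j))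
          (∑ j ∈ Finset.range (m + 1), (1 / (j.factorial : ℝ)) * (φ j 0 * ((j:ℝ) * t ^ (j - 1)))) t := by
        refine HasDerivAt.fun_sum fun j _ => ?_
        exact ((hasDerivAt_pow j t).const_mul _).const_mul _
      have h3 : ∑ j ∈ Finset.range (m + 1), (1 / (j.factorial : ℝ)) * (φ j 0 * ((j:ℝ) * t ^ (j - 1))) =
          ∑ j ∈ Finset.range m, (1 / (j.factorial : ℝ)) * (φ (j + 1) 0 * t ^ j) := by
        rw [Finset.sum_range_succ']
        simp only [Nat.cast_zero, zero_mul, mul_zero, add_zero, Nat.add_sub_cancel]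
        refine Finset.sum_congr rfl fun j _ => ?_
        rw [Nat.factorial_succ]
        have : ((j.factorial : ℕ) : ℝ) ≠ 0 := by exact_mod_cast j.factorial_ne_zero
        push_cast
        field_simp
      rw [h3] at h2
      exact h1.sub h2
    have hmv := Convex.norm_image_sub_le_of_norm_hasDerivWithin_le (f := Rm)
      (f' := fun t => φ 1 t - ∑ j ∈ Finset.range m, (1 / (j.factorial : ℝ)) * (φ (j + 1) 0 * t ^ j))
      (s := Icc (-|s|) |s|) (x := 0) (y := s) (C := C * |s| ^ m)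
      (fun t ht => (hder t (by
        have := abs_le.2 ht
        linarith)).hasDerivWithinAt)
      (fun t ht => by
        have h1 := abs_le.2 ht
        rw [Real.norm_eq_abs]
        refine le_trans (hC t (le_trans h1 hs1)) ?_
        gcongr)
      (convex_Icc _ _) (by simp) (abs_le.1 le_rfl)
    rw [hR0, sub_zero, sub_zero, Real.norm_eq_abs, Real.norm_eq_abs] at hmv
    refine le_trans hmv (le_of_eq ?_)
    rw [pow_succ]; ring

/-! ### Restrictions of polynomials to lines -/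

/-- `g` is a polynomial function of degree `< m` -/
def IsPoly (m : ℕ) (g : ℝ → ℝ) : Prop := ∃ q : Fin m → ℝ, ∀ l : ℝ, g l = ev q l

theorem isPoly_zero (m : ℕ) : IsPoly m (fun _ => 0) := ⟨0, fun l => by simp [ev_def]⟩

theorem isPoly_add {m : ℕ} {g h : ℝ → ℝ} (hg : IsPoly m g) (hh : IsPoly m h) : IsPoly m (fun l => g l + h l) := by
  obtain ⟨q, hq⟩ := hg
  obtain ⟨r, hr⟩ := hh
  refine ⟨q + r, fun l => ?_⟩
  simp only
  rw [hq, hr, ev_def, ev_def, ev_def, ← Finset.sum_add_distrib]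
  refine Finset.sum_congr rfl fun i _ => ?_
  rw [Pi.add_apply]; ring

theorem isPoly_mul {m : ℕ} (a : ℝ) {g : ℝ → ℝ} (hg : IsPoly m g) : IsPoly m (fun l => a * g l) := by
  obtain ⟨q, hq⟩ := hg
  refine ⟨fun i => a * q i, fun l => ?_⟩
  simp only
  rw [hq, ev_def, ev_def, Finset.mul_sum]
  refine Finset.sum_congr rfl fun i _ => ?_
  ring

theorem isPoly_sum {m : ℕ} {ι : Type*} (s : Finset ι) (g : ι → ℝ → ℝ) (h : ∀ i ∈ s, IsPoly m (g i)) :
    IsPoly m (fun l => ∑ i ∈ s, g i l) := by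
  classical
  induction s using Finset.induction_on with
  | empty => simpa using isPoly_zero m
  | insert a s ha ih =>
    simp only [Finset.sum_insert ha]
    exact isPoly_add (h a (Finset.mem_insert_self _ _)) (ih fun i hi => h i (Finset.mem_insert_of_mem hi))

theorem isPoly_pow {m i : ℕ} (hi : i < m) (a : ℝ) : IsPoly m (fun l => l ^ i * a) := by
  classical
  refine ⟨fun j => if (j:ℕ) = i then a else 0, fun l => ?_⟩
  rw [ev_def, Finset.sum_eq_single (⟨i, hi⟩ : Fin m)]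
  · simp [mul_comm]
  · intro b _ hb
    have : ¬ (b:ℕ) = i := fun h => hb (Fin.ext h)
    rw [if_neg this, zero_mul]
  · intro h; exact absurd (Finset.mem_univ _) h

variable {p : ℝ≥0∞} [Fact (1 ≤ p)] [hpt : Fact (p ≠ ⊤)]

theorem isPoly_dg {m k : ℕ} (hk : k < m) (M : ML p k) (a b : LP p) : IsPoly m (fun l => dg M (a + l • b)) := by
  classical
  have h : ∀ l : ℝ, dg M (a + l • b) = ∑ s : Finset (Fin k), l ^ s.card * M (s.piecewise (fun _ => b) (fun _ => a)) := by
    intro l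
    have h1 : dg M (a + l • b) = M ((fun _ => l • b) + (fun _ => a)) := by
      rw [dg_def]; congr 1; ext1 i; rw [Pi.add_apply, add_comm]
    rw [h1, M.map_add_univ]
    refine Finset.sum_congr rfl fun s _ => ?_
    have h3 : s.piecewise (fun _ : Fin k => l • b) (fun _ => a) =
        s.piecewise (fun i => (fun _ : Fin k => l) i • (s.piecewise (fun _ : Fin k => b) (fun _ => a)) i)
          (s.piecewise (fun _ : Fin k => b) (fun _ => a)) := by
      ext1 i
      by_cases hi : i ∈ s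
      · simp [hi]
      · simp [hi]
    rw [h3, M.map_piecewise_smul]
    simp
  simp only [h]
  refine isPoly_sum _ _ (fun s _ => isPoly_pow ?_ _)
  refine lt_of_le_of_lt ?_ hk
  have := s.card_le_univ
  rwa [Fintype.card_fin] at this

theorem dg_smul_left {k : ℕ} (a : ℝ) (M : ML p k) (c : LP p) : dg (a • M) c = a * dg M c := rfl

/-- no traps, for functions with Taylor polynomials -/
theorem no_trap_taylor {f : LP p → ℝ} (hf : Continuous f) {d : ℕ} (hd1 : (d:ℝ) ≤ p.toReal)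
    (hd2 : p.toReal < d + 1) (hodd : (d:ℝ) = p.toReal → Odd d) {O : Set (LP p)} (hO : IsOpen O)
    (M : LP p → (j : ℕ) → ML p j) (hM0 : ∀ z ∈ O, ∀ u, dg (M z 0) u = f z)
    (hT : ∀ z ∈ O, ∀ h, ∃ C : ℝ, ∃ δ > 0, ∀ t : ℝ, |t| ≤ δ →
      |f (z + t • h) - ∑ j ∈ Finset.range (d + 1), (1 / (j.factorial : ℝ)) * dg (M z j) (t • h)| ≤ C * |t| ^ (d + 1)) :
    ∀ x ∈ O, ¬ Trap f x := by
  refine no_trap hf (m := d + 1) (by push_cast; exact hd2) hO
    (fun z u => ∑ j ∈ Finset.range (d + 1), (1 / (j.factorial : ℝ)) * dg (M z j) u) ?_ hT ?_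
  · intro z _ a b
    exact isPoly_sum (Finset.range (d + 1)) (fun j l => (1 / (j.factorial : ℝ)) * dg (M z j) (a + l • b))
      (fun j hj => isPoly_mul _ (isPoly_dg (Finset.mem_range.1 hj) _ _ _))
  · intro z hz
    have hd0 : d ≠ 0 := by
      rintro rfl
      have := pr1 (p := p)
      simp at hd2
      linarith
    obtain ⟨e, rfl⟩ := Nat.exists_eq_succ_of_ne_zero hd0
    have hsplit : ∀ u, ∑ j ∈ Finset.range (e.succ + 1), (1 / (j.factorial : ℝ)) * dg (M z j) u =
        f z + (∑ j ∈ Finset.range e, (1 / ((j + 1).factorial : ℝ)) * dg (M z (j + 1)) u) +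
          (1 / ((e + 1).factorial : ℝ)) * dg (M z (e + 1)) u := by
      intro u
      rw [Finset.sum_range_succ', Finset.sum_range_succ, hM0 z hz]
      simp only [Nat.factorial_zero, Nat.cast_one, div_one, one_mul]
      ring
    have hlow : TSm (fun u => ∑ j ∈ Finset.range e, (1 / ((j + 1).factorial : ℝ)) * dg (M z (j + 1)) u) := by
      refine tsm_sum _ _ (fun j hj => tsm_smul _ (tsm_dg (by omega) ?_ _))
      have h1 : j < e := Finset.mem_range.1 hj
      have h2 : ((j + 1 : ℕ):ℝ) < ((e.succ : ℕ) : ℝ) := by exact_mod_cast (by omega : j + 1 < e.succ)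
      linarith
    rcases lt_or_eq_of_le hd1 with hlt | heq
    · refine ⟨fun u => (∑ j ∈ Finset.range e, (1 / ((j + 1).factorial : ℝ)) * dg (M z (j + 1)) u) +
          (1 / ((e + 1).factorial : ℝ)) * dg (M z (e + 1)) u, fun _ => 0,
        tsm_add hlow (tsm_smul _ (tsm_dg (by omega) hlt _)), cub_zero, fun u => ?_⟩
      rw [hsplit]; ring
    · refine ⟨fun u => ∑ j ∈ Finset.range e, (1 / ((j + 1).factorial : ℝ)) * dg (M z (j + 1)) u,
        dg ((1 / ((e + 1).factorial : ℝ)) • M z (e + 1)), hlow, cub_dg heq (hodd heq) _, fun u => ?_⟩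
      rw [hsplit, dg_smul_left]

/-! ### Existence of traps -/

theorem trap_of_norm {q : LP p → ℝ} (hq : Continuous q) {a b : ℝ} (ha : 0 < a)
    (hab : ∀ x, a * ‖x‖ ≤ q x ∧ q x ≤ b * ‖x‖) : ∃ x, x ≠ 0 ∧ Trap q x := by
  by_contra hcon
  push Not at hcon
  have hb : 0 < b := by
    have := hab (e 0)
    rw [e_norm] at this
    linarith
  set S : ℝ := ((b + 1) / a) ^ p.toReal with hS
  have hS0 : 0 < S := by positivity
  have hne : ∀ w ∈ CT 1, (e 0 : LP p) + w ≠ 0 := by
    intro w hw h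
    have h1 : ((e 0 : LP p) + w) 0 = 1 := by
      rw [lp.coeFn_add, Pi.add_apply, e_apply, hw 0 (by norm_num)]; simp
    rw [h] at h1
    simp at h1
  obtain ⟨w, hw1, hw2, hw3, hw4, _⟩ := walk hq (e 0) 1 (η := 1 / (S + 1)) (κ := 1) (τ := 1) (S := S)
    (by positivity) one_pos le_rfl one_pos hS0.le (L := ∅) finite_empty (fun P hP => absurd hP (notMem_empty P))
    (fun w hw _ _ _ => hcon _ (hne w hw))
  rw [Real.one_rpow] at hw3
  have h1 : 1 / (S + 1) * nu w ≤ 1 := by
    rw [one_div, inv_mul_le_iff₀ (by positivity), mul_one]; exact hw3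
  have h2 := (hab (e 0)).2
  rw [e_norm] at h2
  have h3 := (hab (e 0 + w)).1
  have hb0 : (e 0 : LP p) ∈ Blw 1 := fun i hi => by rw [e_apply, if_neg (by omega)]
  have h4 : nu (e 0 + w) = 1 + nu w := by
    rw [nu_add hb0 (Tl_sub_CT _ hw1), nu_def, e_norm, Real.one_rpow]
  have h5 : ¬ ‖(e 0 : LP p) + w‖ ≤ (b + 1) / a := by
    intro h
    have := (nu_le_iff (by positivity)).2 h
    rw [h4, ← hS] at this
    linarith
  rw [not_le, div_lt_iff₀ ha] at h5
  linarith

theorem trap_of_neg {g : LP p → ℝ} (hg : Continuous g) {x₀ : LP p} (h0 : g x₀ < 0) {R : ℝ}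
    (hb : ∀ x, g x ≠ 0 → ‖x‖ ≤ R) : ∃ x, Trap g x := by
  by_contra hcon
  push Not at hcon
  have hR : 0 ≤ R := le_trans (norm_nonneg _) (hb x₀ h0.ne)
  set S : ℝ := (R + ‖x₀‖ + 1) ^ p.toReal with hS
  have hS0 : 0 < S := by positivity
  obtain ⟨w, hw1, hw2, hw3, hw4, _⟩ := walk hg x₀ 0 (η := (-g x₀ / 2) / (S + 1)) (κ := 1) (τ := 1) (S := S)
    (div_pos (by linarith) (by positivity)) one_pos le_rfl one_pos hS0.le (L := ∅) finite_empty
    (fun P hP => absurd hP (notMem_empty P)) (fun w hw _ _ _ => hcon _)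
  rw [Real.one_rpow] at hw3
  have h1 : (-g x₀ / 2) / (S + 1) * nu w ≤ -g x₀ / 2 := by
    rw [div_mul_eq_mul_div, div_le_iff₀ (by positivity)]
    have : 0 < -g x₀ / 2 := by linarith
    gcongr
  have h2 : g (x₀ + w) < 0 := by linarith
  have h3 := hb _ h2.ne
  have h4 : ‖w‖ ≤ R + ‖x₀‖ := by
    have := norm_sub_le (x₀ + w) x₀
    rw [add_sub_cancel_left] at this
    linarith
  have h5 := (nu_le_iff (by positivity)).2 (le_trans h4 (by linarith : R + ‖x₀‖ ≤ R + ‖x₀‖ + 1))
  linarith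

theorem trap_of_bump {g : LP p → ℝ} (hg : Continuous g) (hne : ∃ x, g x ≠ 0) {R : ℝ}
    (hb : ∀ x, g x ≠ 0 → ‖x‖ ≤ R) : (∃ x, Trap g x) ∨ (∃ x, Trap (fun y => - g y) x) := by
  obtain ⟨x₀, hx₀⟩ := hne
  rcases lt_or_gt_of_ne hx₀ with h | h
  · exact Or.inl (trap_of_neg hg h hb)
  · exact Or.inr (trap_of_neg hg.neg (x₀ := x₀) (by simpa using h) (fun x hx => hb x (by simpa using hx)))

end H312Gat
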