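import Pool.Agent.H312Gat.A7
set_option linter.unusedVariables false
set_option linter.unusedSectionVars false
open Set Filter Topology
open scoped ENNReal

namespace H312Gat

variable {p : ℝ≥0∞} [Fact (1 ≤ p)] [hpt : Fact (p ≠ ⊤)]

/-- `M z j`, `j ≤ n`, are successive derivatives of `f` along lines at the points of `O` -/
def LineDerivs (f : LP p → ℝ) (n : ℕ) (O : Set (LP p)) (M : LP p → (j : ℕ) → ML p j) : Prop :=
  (∀ z ∈ O, ∀ u, dg (M z 0) u = f z) ∧ ∀ z ∈ O, ∀ h, ∀ j < n,
    HasDerivAt (fun t : ℝ => dg (M (z + t • h) j) h) (dg (M z (j + 1)) h) 0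

theorem no_trap_deriv {f : LP p → ℝ} (hf : Continuous f) (hp : ∀ k : ℕ, p.toReal ≠ 2 * k) {n : ℕ}
    (hn : p.toReal < n) {O : Set (LP p)} (hO : IsOpen O)
    (M : LP p → (j : ℕ) → ML p j) (hM : LineDerivs f n O M) :
    ∀ x ∈ O, ¬ Trap f x := by
  have hpr := pr_pos (p := p)
  set d := ⌊p.toReal⌋₊ with hd
  have hd1 : (d:ℝ) ≤ p.toReal := Nat.floor_le hpr.le
  have hd2 : p.toReal < d + 1 := Nat.lt_floor_add_one _
  have hdn : d < n := by
    have : (d:ℝ) < n := lt_of_le_of_lt hd1 hn
    exact_mod_cast this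
  refine no_trap_taylor hf hd1 hd2 ?_ hO M hM.1 ?_
  · intro h
    rw [← Nat.not_even_iff_odd]
    rintro ⟨k, hk⟩
    apply hp k
    rw [← h, hk]; push_cast; ring
  · intro z hz h
    obtain ⟨r, hr, hball⟩ := Metric.isOpen_iff.1 hO z hz
    have hin : ∀ t : ℝ, |t| < r / (‖h‖ + 1) → z + t • h ∈ O := by
      intro t ht
      apply hball
      rw [Metric.mem_ball, dist_eq_norm, add_sub_cancel_left, norm_smul, Real.norm_eq_abs]
      rw [lt_div_iff₀ (by positivity)] at ht
      have := abs_nonneg t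
      nlinarith [norm_nonneg h]
    obtain ⟨C, _, δ', hδ', hC⟩ := taylor_line (d + 1) (by omega) (fun j t => dg (M (z + t • h) j) h)
      (r / (‖h‖ + 1)) (by positivity) (by
        intro j hj t ht
        have h1 := hM.2 (z + t • h) (hin t ht) h j (by omega)
        have h2 : (fun s : ℝ => dg (M (z + s • h) j) h) = fun s => (fun s => dg (M (z + t • h + s • h) j) h) (s - t) := by
          ext s
          simp only
          rw [add_assoc, ← add_smul, add_sub_cancel]
        rw [h2]
        rw [← sub_self t] at h1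
        exact h1.comp_sub_const t t)
    refine ⟨C, min δ' (r / (‖h‖ + 1) / 2), lt_min hδ' (by positivity), fun t ht => ?_⟩
    have h1 := hC t (le_trans ht (min_le_left _ _))
    have h3 : |t| < r / (‖h‖ + 1) := by
      have h4 := le_trans ht (min_le_right _ _)
      have h5 : 0 < r / (‖h‖ + 1) := by positivity
      linarith
    simp only [zero_smul, add_zero] at h1
    rw [hM.1 _ (hin t h3)] at h1
    have h2 : ∑ j ∈ Finset.range (d + 1), (1 / (j.factorial : ℝ)) * dg (M z j) (t • h) =
        ∑ j ∈ Finset.range (d + 1), (1 / (j.factorial : ℝ)) * (dg (M z j) h * t ^ j) := by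
      refine Finset.sum_congr rfl fun j _ => ?_
      rw [dg_smul, mul_comm (t ^ j)]
    rw [h2]
    exact h1

/-- there is no equivalent norm with `n > p` derivatives -/
theorem no_norm_derivs (hp : ∀ k : ℕ, p.toReal ≠ 2 * k) {n : ℕ} (hn : p.toReal < n)
    {q : LP p → ℝ} (hadd : ∀ x y, q (x + y) ≤ q x + q y) (hsm : ∀ (t : ℝ) x, q (t • x) = |t| * q x)
    {a b : ℝ} (ha : 0 < a) (hab : ∀ x, a * ‖x‖ ≤ q x ∧ q x ≤ b * ‖x‖)
    (M : LP p → (j : ℕ) → ML p j) (hM : LineDerivs q n {0}ᶜ M) : False := by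
  have hcont : Continuous q := by
    rw [Metric.continuous_iff]
    intro x ε hε
    refine ⟨ε / (|b| + 1), by positivity, fun y hy => ?_⟩
    rw [dist_eq_norm, lt_div_iff₀ (by positivity)] at hy
    have hneg : ∀ x, q (-x) = q x := fun x => by
      have := hsm (-1) x
      rw [neg_one_smul, abs_neg, abs_one, one_mul] at this
      exact this
    have h1 : q y ≤ q (y - x) + q x := by
      have := hadd (y - x) x
      rwa [sub_add_cancel] at this
    have h2 : q x ≤ q (y - x) + q y := by
      have := hadd (x - y) y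
      rwa [sub_add_cancel, ← neg_sub y x, hneg] at this
    have h3 := (hab (y - x)).2
    have h4 : b * ‖y - x‖ ≤ |b| * ‖y - x‖ := by
      have := le_abs_self b
      have := norm_nonneg (y - x)
      gcongr
    have h5 := norm_nonneg (y - x)
    rw [Real.dist_eq, abs_lt]
    constructor <;> nlinarith
  obtain ⟨x, hx0, hx⟩ := trap_of_norm hcont ha hab
  exact no_trap_deriv hcont hp hn isOpen_compl_singleton M hM x hx0 hx

/-- there is no continuous bump with `n > p` derivatives -/
theorem no_bump_derivs (hp : ∀ k : ℕ, p.toReal ≠ 2 * k) {n : ℕ} (hn : p.toReal < n)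
    {g : LP p → ℝ} (hg : Continuous g) (hne : ∃ x, g x ≠ 0) {R : ℝ} (hR : ∀ x, g x ≠ 0 → ‖x‖ ≤ R)
    (M : LP p → (j : ℕ) → ML p j) (hM : LineDerivs g n univ M) : False := by
  rcases trap_of_bump hg hne hR with ⟨x, hx⟩ | ⟨x, hx⟩
  · exact no_trap_deriv hg hp hn isOpen_univ M hM x (mem_univ _) hx
  · refine no_trap_deriv (f := fun y => - g y) hg.neg hp hn isOpen_univ (fun z j => - M z j) ⟨fun z hz u => ?_, fun z hz h j hj => ?_⟩ x (mem_univ _) hx
    · rw [dg_neg, hM.1 z hz u]
    · have := (hM.2 z hz h j hj).neg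
      exact this

end H312Gat
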