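import Mathlib
set_option linter.unusedVariables false
set_option linter.unusedSectionVars false
open Set Filter Topology
open scoped ContDiff

namespace H312Gat

variable {X : Type*} [NormedAddCommGroup X] [NormedSpace ℝ X]

theorem sep_pt {x y : X} (h : x ≠ y) : ∃ χ : X → ℝ, ContDiff ℝ ∞ χ ∧ (∀ᶠ z in 𝓝 x, χ z = 1) ∧
    (∀ᶠ z in 𝓝 y, χ z = 0) := by
  obtain ⟨g, _, hg⟩ := exists_dual_vector ℝ (x - y) (norm_ne_zero_iff.2 (sub_ne_zero.2 h))
  have hd : g x - g y ≠ 0 := by
    rw [← map_sub, hg]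
    simpa using sub_ne_zero.2 h
  let u : X → ℝ := fun z => 3 * ((g z - g y) / (g x - g y)) - 1
  have hu : ContDiff ℝ ∞ u := by
    have h1 : ContDiff ℝ ∞ (fun z => g z) := g.contDiff
    exact (contDiff_const.mul ((h1.sub contDiff_const).div_const _)).sub contDiff_const
  have hux : u x = 2 := by
    simp only [u]; rw [div_self hd]; norm_num
  have huy : u y = -1 := by
    simp only [u]; rw [sub_self, zero_div]; norm_num
  refine ⟨fun z => Real.smoothTransition (u z), Real.smoothTransition.contDiff.comp hu, ?_, ?_⟩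
  · have h1 : ∀ᶠ z in 𝓝 x, 1 < u z := hu.continuous.continuousAt.eventually_const_lt (by rw [hux]; norm_num)
    exact h1.mono fun z hz => Real.smoothTransition.one_of_one_le hz.le
  · have h1 : ∀ᶠ z in 𝓝 y, u z < 0 := hu.continuous.continuousAt.eventually_lt_const (by rw [huy]; norm_num)
    exact h1.mono fun z hz => Real.smoothTransition.zero_of_nonpos hz.le

theorem sep_pt_compact {x : X} {K : Set X} (hK : IsCompact K) (hx : x ∉ K) :
    ∃ χ : X → ℝ, ContDiff ℝ ∞ χ ∧ (∀ᶠ z in 𝓝 x, χ z = 1) ∧ ∀ y ∈ K, ∀ᶠ z in 𝓝 y, χ z = 0 := by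
  refine hK.induction_on (p := fun S => ∃ χ : X → ℝ, ContDiff ℝ ∞ χ ∧ (∀ᶠ z in 𝓝 x, χ z = 1) ∧
    ∀ y ∈ S, ∀ᶠ z in 𝓝 y, χ z = 0) ?_ ?_ ?_ ?_
  · exact ⟨fun _ => 1, contDiff_const, Eventually.of_forall fun _ => rfl, fun y hy => absurd hy (notMem_empty y)⟩
  · rintro s t hst ⟨χ, h1, h2, h3⟩
    exact ⟨χ, h1, h2, fun y hy => h3 y (hst hy)⟩
  · rintro s t ⟨χ, h1, h2, h3⟩ ⟨χ', h1', h2', h3'⟩
    refine ⟨fun z => χ z * χ' z, h1.mul h1', ?_, ?_⟩
    · filter_upwards [h2, h2'] with z e1 e2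
      rw [e1, e2, one_mul]
    · rintro y (hy | hy)
      · filter_upwards [h3 y hy] with z e1
        rw [e1, zero_mul]
      · filter_upwards [h3' y hy] with z e1
        rw [e1, mul_zero]
  · intro y hy
    obtain ⟨χ, h1, h2, h3⟩ := sep_pt (x := x) (y := y) (fun h => hx (h ▸ hy))
    refine ⟨{y' | ∀ᶠ z in 𝓝 y', χ z = 0}, mem_nhdsWithin_of_mem_nhds ?_, χ, h1, h2, fun y' hy' => hy'⟩
    exact eventually_eventually_nhds.2 h3

theorem sep_compact {K₁ K₂ : Set X} (hK₁ : IsCompact K₁) (hK₂ : IsCompact K₂) (hd : Disjoint K₁ K₂) :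
    ∃ χ : X → ℝ, ContDiff ℝ ∞ χ ∧ (∀ x ∈ K₁, ∀ᶠ z in 𝓝 x, χ z = 1) ∧ ∀ y ∈ K₂, ∀ᶠ z in 𝓝 y, χ z = 0 := by
  refine hK₁.induction_on (p := fun S => ∃ χ : X → ℝ, ContDiff ℝ ∞ χ ∧ (∀ x ∈ S, ∀ᶠ z in 𝓝 x, χ z = 1) ∧
    ∀ y ∈ K₂, ∀ᶠ z in 𝓝 y, χ z = 0) ?_ ?_ ?_ ?_
  · exact ⟨fun _ => 0, contDiff_const, fun y hy => absurd hy (notMem_empty y), fun _ _ => Eventually.of_forall fun _ => rfl⟩
  · rintro s t hst ⟨χ, h1, h2, h3⟩
    exact ⟨χ, h1, fun y hy => h2 y (hst hy), h3⟩
  · rintro s t ⟨χ, h1, h2, h3⟩ ⟨χ', h1', h2', h3'⟩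
    refine ⟨fun z => 1 - (1 - χ z) * (1 - χ' z),
      contDiff_const.sub ((contDiff_const.sub h1).mul (contDiff_const.sub h1')), ?_, ?_⟩
    · rintro y (hy | hy)
      · filter_upwards [h2 y hy] with z e1
        rw [e1]; ring
      · filter_upwards [h2' y hy] with z e1
        rw [e1]; ring
    · intro y hy
      filter_upwards [h3 y hy, h3' y hy] with z e1 e2
      rw [e1, e2]; ring
  · intro x hx
    obtain ⟨χ, h1, h2, h3⟩ := sep_pt_compact hK₂ (disjoint_left.1 hd hx)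
    refine ⟨{x' | ∀ᶠ z in 𝓝 x', χ z = 1}, mem_nhdsWithin_of_mem_nhds ?_, χ, h1, fun x' hx' => hx', h3⟩
    exact eventually_eventually_nhds.2 h2

theorem glue2 {K₁ K₂ : Set X} (hK₁ : IsCompact K₁) (hK₂ : IsCompact K₂) {H₁ H₂ : X → ℝ}
    (h1 : ContDiff ℝ ∞ H₁) (h2 : ContDiff ℝ ∞ H₂) (hc : ∀ x ∈ K₁ ∩ K₂, H₁ =ᶠ[𝓝 x] H₂) :
    ∃ H : X → ℝ, ContDiff ℝ ∞ H ∧ (∀ x ∈ K₁, H =ᶠ[𝓝 x] H₁) ∧ (∀ x ∈ K₂, H =ᶠ[𝓝 x] H₂) := by
  set W : Set X := {x | H₁ =ᶠ[𝓝 x] H₂} with hW
  have hWo : IsOpen W := isOpen_setOfPred_eventually_nhds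
  have hK₁' : IsCompact (K₁ \ W) := hK₁.diff hWo
  have hd : Disjoint (K₁ \ W) K₂ := by
    rw [disjoint_left]
    rintro x ⟨hx1, hx2⟩ hx3
    exact hx2 (hc x ⟨hx1, hx3⟩)
  obtain ⟨χ, c1, c2, c3⟩ := sep_compact hK₁' hK₂ hd
  refine ⟨fun z => χ z * H₁ z + (1 - χ z) * H₂ z, (c1.mul h1).add ((contDiff_const.sub c1).mul h2), ?_, ?_⟩
  · intro x hx
    by_cases hxW : x ∈ W
    · filter_upwards [(show H₁ =ᶠ[𝓝 x] H₂ from hxW)] with z e1
      rw [← e1]; ring
    · filter_upwards [c2 x ⟨hx, hxW⟩] with z e1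
      rw [e1]; ring
  · intro x hx
    filter_upwards [c3 x hx] with z e1
    rw [e1]; ring

theorem glueFin {ι : Type*} (T : Finset ι) (K : ι → Set X) (H : ι → X → ℝ) (hK : ∀ i ∈ T, IsCompact (K i))
    (hH : ∀ i ∈ T, ContDiff ℝ ∞ (H i)) (hc : ∀ i ∈ T, ∀ j ∈ T, ∀ x ∈ K i ∩ K j, H i =ᶠ[𝓝 x] H j) :
    ∃ H₀ : X → ℝ, ContDiff ℝ ∞ H₀ ∧ ∀ i ∈ T, ∀ x ∈ K i, H₀ =ᶠ[𝓝 x] H i := by
  classical
  induction T using Finset.induction_on with
  | empty => exact ⟨fun _ => 0, contDiff_const, fun i hi => absurd hi (Finset.notMem_empty i)⟩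
  | insert a s ha ih =>
    obtain ⟨H₀, h0, h1⟩ := ih (fun i hi => hK i (Finset.mem_insert_of_mem hi))
      (fun i hi => hH i (Finset.mem_insert_of_mem hi))
      (fun i hi j hj => hc i (Finset.mem_insert_of_mem hi) j (Finset.mem_insert_of_mem hj))
    obtain ⟨H', g0, g1, g2⟩ := glue2 (K₁ := ⋃ i ∈ s, K i) (K₂ := K a)
      (s.isCompact_biUnion (fun i hi => hK i (Finset.mem_insert_of_mem hi))) (hK a (Finset.mem_insert_self _ _))
      h0 (hH a (Finset.mem_insert_self _ _)) (by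
        rintro x ⟨hx1, hx2⟩
        rw [mem_iUnion₂] at hx1
        obtain ⟨i, hi, hxi⟩ := hx1
        exact (h1 i hi x hxi).trans (hc i (Finset.mem_insert_of_mem hi) a (Finset.mem_insert_self _ _) x ⟨hxi, hx2⟩))
    refine ⟨H', g0, fun i hi x hx => ?_⟩
    rcases Finset.mem_insert.1 hi with rfl | hi
    · exact g2 x hx
    · exact (g1 x (mem_iUnion₂.2 ⟨i, hi, hx⟩)).trans (h1 i hi x hx)

/-! ### The coherent family -/

section family
variable {I : Type*} (b : Module.Basis I ℝ X)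

/-- vectors with Hamel support in `J` -/
def ES (J : Finset I) : Set X := {x | (b.repr x).support ⊆ J}

theorem ES_eq_span (J : Finset I) : ES b J = (Submodule.span ℝ (b '' (J : Set I)) : Set X) := by
  ext x
  rw [SetLike.mem_coe, Module.Basis.mem_span_image]
  simp [ES]

theorem ES_compact (J : Finset I) (R : ℝ) : IsCompact {x | x ∈ ES b J ∧ ‖x‖ ≤ R} := by
  set F := Submodule.span ℝ (b '' (J : Set I)) with hF
  have : FiniteDimensional ℝ F := FiniteDimensional.span_of_finite ℝ ((J.finite_toSet).image b)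
  have hp : ProperSpace F := FiniteDimensional.proper ℝ F
  have h1 : IsCompact ((fun x : F => (x : X)) '' Metric.closedBall (0 : F) R) :=
    (isCompact_closedBall _ _).image continuous_subtype_val
  have h2 : {x | x ∈ ES b J ∧ ‖x‖ ≤ R} = (fun x : F => (x : X)) '' Metric.closedBall (0 : F) R := by
    ext x
    rw [ES_eq_span]
    constructor
    · rintro ⟨h1, h2⟩
      exact ⟨⟨x, h1⟩, by simpa using h2, rfl⟩
    · rintro ⟨y, hy, rfl⟩
      exact ⟨y.2, by simpa using hy⟩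
  rw [h2]; exact h1

theorem ES_compact_sphere (J : Finset I) (R : ℝ) : IsCompact {x | x ∈ ES b J ∧ ‖x‖ = R} := by
  refine (ES_compact b J R).of_isClosed_subset ?_ (fun x hx => ⟨hx.1, hx.2.le⟩)
  have : {x | x ∈ ES b J ∧ ‖x‖ = R} = {x | x ∈ ES b J ∧ ‖x‖ ≤ R} ∩ {x | ‖x‖ = R} := by
    ext x; constructor
    · rintro ⟨h1, h2⟩; exact ⟨⟨h1, h2.le⟩, h2⟩
    · rintro ⟨⟨h1, _⟩, h2⟩; exact ⟨h1, h2⟩
  rw [this]
  exact (ES_compact b J R).isClosed.inter (isClosed_eq continuous_norm continuous_const)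

/-- the requirement on the new function `H` -/
def Good (J : Finset I) (prev : Finset I → X → ℝ) (H : X → ℝ) : Prop :=
  ContDiff ℝ ∞ H ∧ (∀ J' ⊂ J, ∀ x ∈ ES b J', ‖x‖ ≤ 1 → H =ᶠ[𝓝 x] prev J') ∧
    (∀ x ∈ ES b J, ‖x‖ = 1 → H =ᶠ[𝓝 x] (fun _ => 0)) ∧ (J = ∅ → H = fun _ => 1)

theorem good_exists [DecidableEq I] (J : Finset I) (prev : Finset I → X → ℝ)
    (hprev : ∀ J' ⊂ J, Good b J' prev (prev J')) : ∃ H, Good b J prev H := by
  by_cases hJ : J = ∅
  · subst hJ
    refine ⟨fun _ => 1, contDiff_const, fun J' hJ' => absurd hJ' (by simp [Finset.not_ssubset_empty]), ?_, fun _ => rfl⟩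
    intro x hx hx1
    exfalso
    have h0 : (b.repr x) = 0 := by
      have : (b.repr x).support ⊆ ∅ := hx
      exact Finsupp.support_eq_empty.1 (Finset.subset_empty.1 this)
    have : x = 0 := by
      have := congrArg b.repr.symm h0
      simpa using this
    rw [this, norm_zero] at hx1
    norm_num at hx1
  · obtain ⟨H, h1, h2⟩ := glueFin (insert none ((J.powerset.erase J).image some) : Finset (Option (Finset I)))
      (fun o => match o with
        | none => {x | x ∈ ES b J ∧ ‖x‖ = 1}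
        | some J' => {x | x ∈ ES b J' ∧ ‖x‖ ≤ 1})
      (fun o => match o with
        | none => fun _ => 0
        | some J' => prev J') (by
        intro o _
        rcases o with _ | J'
        · exact ES_compact_sphere b J 1
        · exact ES_compact b J' 1) (by
        intro o ho
        rcases o with _ | J'
        · exact contDiff_const
        · simp only [Finset.mem_insert, reduceCtorEq, Finset.mem_image, Finset.mem_erase, Finset.mem_powerset,
            Option.some.injEq, exists_eq_right, false_or] at ho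
          exact (hprev J' (Finset.ssubset_iff_subset_ne.2 ⟨ho.2, ho.1⟩)).1) (by
        have hss : ∀ J', some J' ∈ (insert none ((J.powerset.erase J).image some) : Finset (Option (Finset I))) → J' ⊂ J := by
          intro J' ho
          simp only [Finset.mem_insert, reduceCtorEq, Finset.mem_image, Finset.mem_erase, Finset.mem_powerset,
            Option.some.injEq, exists_eq_right, false_or] at ho
          exact Finset.ssubset_iff_subset_ne.2 ⟨ho.2, ho.1⟩
        have hstep : ∀ J₁ J₂, J₁ ⊂ J → J₂ ⊂ J → ∀ x, x ∈ ES b J₁ → x ∈ ES b J₂ → ‖x‖ ≤ 1 → prev J₁ =ᶠ[𝓝 x] prev (J₁ ∩ J₂) := by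
          intro J₁ J₂ h1 h2 x hx1 hx2 hx
          rcases (LE.le.eq_or_ssubset (Finset.inter_subset_left : J₁ ∩ J₂ ⊆ J₁)).symm with h | h
          · exact (hprev J₁ h1).2.1 _ h x (Finset.subset_inter hx1 hx2) hx
          · rw [h]
        intro o₁ ho₁ o₂ ho₂ x hx
        rcases o₁ with _ | J₁ <;> rcases o₂ with _ | J₂
        · exact Filter.EventuallyEq.refl _ _
        · obtain ⟨⟨x1, x2⟩, x3, x4⟩ := hx
          exact ((hprev J₂ (hss J₂ ho₂)).2.2.1 x x3 x2).symm
        · obtain ⟨⟨x1, x2⟩, x3, x4⟩ := hx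
          exact (hprev J₁ (hss J₁ ho₁)).2.2.1 x x1 x4
        · obtain ⟨⟨x1, x2⟩, x3, x4⟩ := hx
          have e1 := hstep J₁ J₂ (hss J₁ ho₁) (hss J₂ ho₂) x x1 x3 x2
          have e2 := hstep J₂ J₁ (hss J₂ ho₂) (hss J₁ ho₁) x x3 x1 x2
          rw [Finset.inter_comm] at e2
          exact e1.trans e2.symm)
    refine ⟨H, h1, fun J' hJ' x hx hx1 => ?_, fun x hx hx1 => ?_, fun h => absurd h hJ⟩
    · exact h2 (some J') (Finset.mem_insert_of_mem (Finset.mem_image.2 ⟨J', Finset.mem_erase.2 ⟨hJ'.ne, Finset.mem_powerset.2 hJ'.subset⟩, rfl⟩)) x ⟨hx, hx1⟩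
    · exact h2 none (Finset.mem_insert_self _ _) x ⟨hx, hx1⟩

theorem family_exists : ∃ H : Finset I → X → ℝ, ∀ J, Good b J H (H J) := by
  classical
  -- extend a partial family
  let step : (J : Finset I) → ((J' : Finset I) → J' ⊂ J → X → ℝ) → X → ℝ := fun J prev =>
    if h : ∃ H, Good b J (fun J' => if h' : J' ⊂ J then prev J' h' else fun _ => 0) H then h.choose else fun _ => 0
  let H : Finset I → X → ℝ := fun J => Finset.strongInduction step J
  have hH : ∀ J, H J = step J (fun J' _ => H J') := fun J => Finset.strongInduction_eq step J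
  have hcongr : ∀ J (p q : Finset I → X → ℝ), (∀ J' ⊂ J, p J' = q J') → ∀ K, Good b J p K → Good b J q K := by
    intro J p q hpq K hK
    refine ⟨hK.1, fun J' hJ' x hx hx1 => ?_, hK.2.2.1, hK.2.2.2⟩
    rw [← hpq J' hJ']
    exact hK.2.1 J' hJ' x hx hx1
  refine ⟨H, fun J => ?_⟩
  induction J using Finset.strongInduction with
  | H J ih =>
    obtain ⟨K, hK⟩ := good_exists b J H ih
    have hex : ∃ K, Good b J (fun J' => if h' : J' ⊂ J then H J' else fun _ => 0) K :=
      ⟨K, hcongr J _ _ (fun J' hJ' => by rw [dif_pos hJ']) K hK⟩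
    have h1 : H J = hex.choose := by
      rw [hH J]
      simp only [step]
      rw [dif_pos hex]
    rw [h1]
    exact hcongr J _ _ (fun J' hJ' => by rw [dif_pos hJ']) _ hex.choose_spec

end family

/-- On every real normed space there is a function which is `1` at `0`, vanishes outside the unit
ball, and agrees near each point, inside each finite-dimensional affine subspace through the point,
with a `C^∞` function. -/
theorem wild (X : Type*) [NormedAddCommGroup X] [NormedSpace ℝ X] :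
    ∃ f : X → ℝ, ∃ G : X → X → ℝ, f 0 = 1 ∧ (∀ x, 1 ≤ ‖x‖ → f x = 0) ∧ (∀ x, ContDiff ℝ ∞ (G x)) ∧
      ∀ x, ∀ (n : ℕ) (v : Fin n → X), ∀ᶠ s : Fin n → ℝ in 𝓝 0, f (x + ∑ i, s i • v i) = G x (x + ∑ i, s i • v i) := by
  classical
  let b := Module.Basis.ofVectorSpace ℝ X
  obtain ⟨H, hH⟩ := family_exists b
  let sp : X → Finset _ := fun x => (b.repr x).support
  let f : X → ℝ := fun x => if ‖x‖ < 1 then H (sp x) x else 0
  let G : X → X → ℝ := fun x => if ‖x‖ < 1 then H (sp x) else fun _ => 0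
  have hsp : ∀ x, x ∈ ES b (sp x) := fun x => Finset.Subset.refl _
  -- equality of `f` and `H J` on the open ball of `ES b J`
  have hfJ : ∀ J, ∀ y ∈ ES b J, ‖y‖ < 1 → f y = H J y := by
    intro J y hy hy1
    simp only [f]
    rw [if_pos hy1]
    rcases (LE.le.eq_or_ssubset (show sp y ⊆ J from hy)).symm with h | h
    · exact ((hH J).2.1 _ h y (hsp y) hy1.le).self_of_nhds.symm
    · rw [h]
  refine ⟨f, G, ?_, ?_, ?_, ?_⟩
  · have h1 : sp 0 = ∅ := by simp [sp]
    simp only [f]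
    rw [norm_zero, if_pos one_pos, h1, (hH ∅).2.2.2 rfl]
  · intro x hx
    simp only [f]
    rw [if_neg (not_lt.2 hx)]
  · intro x
    simp only [G]
    split_ifs
    · exact (hH _).1
    · exact contDiff_const
  · intro x n v
    -- a common finite support
    set J : Finset _ := sp x ∪ Finset.univ.biUnion (fun i => sp (v i)) with hJ
    have hJx : ∀ s : Fin n → ℝ, x + ∑ i, s i • v i ∈ ES b J := by
      intro s
      rw [ES_eq_span]
      refine Submodule.add_mem _ ?_ (Submodule.sum_mem _ fun i _ => Submodule.smul_mem _ _ ?_)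
      · rw [← SetLike.mem_coe, ← ES_eq_span]
        exact Finset.subset_union_left
      · rw [← SetLike.mem_coe, ← ES_eq_span]
        exact (Finset.subset_biUnion_of_mem (fun i => sp (v i)) (Finset.mem_univ i)).trans Finset.subset_union_right
    have hcont : Tendsto (fun s : Fin n → ℝ => x + ∑ i, s i • v i) (𝓝 0) (𝓝 x) := by
      have hc : Continuous (fun s : Fin n → ℝ => x + ∑ i, s i • v i) := by fun_prop
      have := hc.tendsto 0
      simpa using this
    have hxJ : x ∈ ES b J := by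
      have := hJx 0
      simpa using this
    rcases lt_trichotomy ‖x‖ 1 with hx | hx | hx
    · have h1 : ∀ᶠ y in 𝓝 x, ‖y‖ < 1 := continuous_norm.continuousAt.eventually_lt_const hx
      have h2 : H J =ᶠ[𝓝 x] H (sp x) := by
        have hsub : sp x ⊆ J := Finset.subset_union_left
        clear_value J
        rcases (LE.le.eq_or_ssubset hsub).symm with h | h
        · exact (hH J).2.1 _ h x (hsp x) hx.le
        · rw [← h]
      filter_upwards [hcont.eventually h1, hcont.eventually h2] with s e1 e2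
      rw [hfJ J _ (hJx s) e1, e2]
      simp only [G]
      rw [if_pos hx]
    · have h2 : H J =ᶠ[𝓝 x] (fun _ => 0) := (hH J).2.2.1 x hxJ hx
      filter_upwards [hcont.eventually h2] with s e2
      have e3 : G x (x + ∑ i, s i • v i) = 0 := by
        simp only [G]
        rw [if_neg (by rw [hx]; exact lt_irrefl 1)]
      rw [e3]
      rcases lt_or_ge ‖x + ∑ i, s i • v i‖ 1 with h | h
      · rw [hfJ J _ (hJx s) h, e2]
      · simp only [f]
        rw [if_neg (not_lt.2 h)]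
    · have h1 : ∀ᶠ y in 𝓝 x, 1 < ‖y‖ := continuous_norm.continuousAt.eventually_const_lt hx
      filter_upwards [hcont.eventually h1] with s e1
      simp only [f, G]
      rw [if_neg (not_lt.2 e1.le), if_neg (not_lt.2 hx.le)]

end H312Gat
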