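import Pool.Agent.H312Gat.B1
set_option linter.unusedVariables false
set_option linter.unusedSectionVars false
open Set Filter Topology
open scoped ContDiff

namespace H312Gat

variable {X : Type*} [NormedAddCommGroup X] [NormedSpace ℝ X]

theorem contDiff_iter {g : X → ℝ} (hg : ContDiff ℝ ∞ g) (k : ℕ) : ContDiff ℝ ∞ (fun y => iteratedFDeriv ℝ k g y) :=
  hg.iteratedFDeriv_right (m := ∞) (i := k) le_rfl

theorem contDiff_iter_apply {g : X → ℝ} (hg : ContDiff ℝ ∞ g) (k : ℕ) (w : Fin k → X) :
    ContDiff ℝ ∞ (fun y => iteratedFDeriv ℝ k g y w) :=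
  (ContinuousMultilinearMap.apply ℝ (fun _ : Fin k => X) ℝ w).contDiff.comp (contDiff_iter hg k)

theorem fderiv_iter_apply {g : X → ℝ} (hg : ContDiff ℝ ∞ g) (k : ℕ) (w : Fin k → X) (x u : X) :
    fderiv ℝ (fun y => iteratedFDeriv ℝ k g y w) x u = fderiv ℝ (iteratedFDeriv ℝ k g) x u w := by
  have h1 : HasFDerivAt (iteratedFDeriv ℝ k g) (fderiv ℝ (iteratedFDeriv ℝ k g) x) x :=
    ((contDiff_iter hg k).differentiable (by simp)).differentiableAt.hasFDerivAt
  have h2 := (ContinuousMultilinearMap.apply ℝ (fun _ : Fin k => X) ℝ w).hasFDerivAt.comp x h1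
  have h3 : fderiv ℝ (fun y => iteratedFDeriv ℝ k g y w) x =
      (ContinuousMultilinearMap.apply ℝ (fun _ : Fin k => X) ℝ w).comp (fderiv ℝ (iteratedFDeriv ℝ k g) x) := h2.fderiv
  rw [h3]; rfl

theorem iter_succ {g : X → ℝ} (hg : ContDiff ℝ ∞ g) (k : ℕ) (v : Fin (k + 1) → X) (x : X) :
    iteratedFDeriv ℝ (k + 1) g x v = fderiv ℝ (fun y => iteratedFDeriv ℝ k g y (Fin.tail v)) x (v 0) := by
  rw [fderiv_iter_apply hg, iteratedFDeriv_succ_apply_left]

theorem iter_symm : ∀ (k : ℕ) (g : X → ℝ), ContDiff ℝ ∞ g → ∀ (x : X) (σ : Equiv.Perm (Fin k)) (v : Fin k → X),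
    iteratedFDeriv ℝ k g x (v ∘ σ) = iteratedFDeriv ℝ k g x v := by
  intro k
  induction k with
  | zero =>
    intro g hg x σ v
    congr 1
    ext1 i
    exact i.elim0
  | succ k ih =>
    intro g hg x σ
    have hσ : σ ∈ Submonoid.closure (Set.range fun i : Fin k ↦ Equiv.swap i.castSucc i.succ) := by
      rw [Equiv.Perm.mclosure_swap_castSucc_succ]; trivial
    induction hσ using Submonoid.closure_induction with
    | one => intro v; rfl
    | mul a b ha hb iha ihb =>
      intro v
      have : v ∘ ((a * b : Equiv.Perm (Fin (k + 1))) : Fin (k + 1) → Fin (k + 1)) = (v ∘ a) ∘ b := rfl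
      rw [this, ihb, iha]
    | mem s hs =>
      obtain ⟨i, rfl⟩ := hs
      intro v
      simp only
      rcases k with _ | k
      · exact i.elim0
      · refine Fin.cases ?_ (fun i => ?_) i
        · -- the first two slots
          have key : ∀ w : Fin (k + 2) → X, iteratedFDeriv ℝ (k + 2) g x w =
              fderiv ℝ (fderiv ℝ (fun y => iteratedFDeriv ℝ k g y (Fin.tail (Fin.tail w)))) x (w 0) (w 1) := by
            intro w
            rw [iter_succ hg]
            have h1 : (fun y => iteratedFDeriv ℝ (k + 1) g y (Fin.tail w)) =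
                fun y => fderiv ℝ (fun y => iteratedFDeriv ℝ k g y (Fin.tail (Fin.tail w))) y (w 1) := by
              ext y
              rw [iter_succ hg]; rfl
            rw [h1]
            have h2 : DifferentiableAt ℝ (fderiv ℝ (fun y => iteratedFDeriv ℝ k g y (Fin.tail (Fin.tail w)))) x :=
              (((contDiff_iter_apply hg k _).fderiv_right (m := ∞) (by simp)).differentiable (by simp)).differentiableAt
            have h3 := h2.hasFDerivAt.clm_apply (hasFDerivAt_const (w 1) x)
            rw [h3.fderiv]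
            simp
          rw [key, key]
          have h0 : Fin.tail (Fin.tail (v ∘ (Equiv.swap (Fin.castSucc (0 : Fin (k + 1))) (Fin.succ 0)))) = Fin.tail (Fin.tail v) := by
            ext1 j
            simp only [Fin.tail, Function.comp]
            rw [Equiv.swap_apply_of_ne_of_ne]
            · simp
            · intro h
              have := congrArg Fin.val h
              simp at this
          rw [h0]
          have hs := ((contDiff_iter_apply hg k (Fin.tail (Fin.tail v))).contDiffAt (x := x)).isSymmSndFDerivAt (by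
            rw [minSmoothness_of_isRCLikeNormedField]
            exact WithTop.coe_le_coe.2 le_top)
          have e0 : (v ∘ (Equiv.swap (Fin.castSucc (0 : Fin (k + 1))) (Fin.succ 0))) 0 = v 1 := by
            simp [Function.comp]
          have e1 : (v ∘ (Equiv.swap (Fin.castSucc (0 : Fin (k + 1))) (Fin.succ 0))) 1 = v 0 := by
            have : (1 : Fin (k + 2)) = Fin.succ 0 := rfl
            rw [Function.comp, this, Equiv.swap_apply_right]; rfl
          rw [e0, e1]
          exact hs _ _
        · have e0 : (v ∘ (Equiv.swap (Fin.castSucc (Fin.succ i)) (Fin.succ (Fin.succ i)))) 0 = v 0 := by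
            rw [Function.comp, Equiv.swap_apply_of_ne_of_ne]
            · intro h
              have := congrArg Fin.val h
              simp at this
            · intro h
              have := congrArg Fin.val h
              simp at this
          have e1 : Fin.tail (v ∘ (Equiv.swap (Fin.castSucc (Fin.succ i)) (Fin.succ (Fin.succ i)))) =
              (Fin.tail v) ∘ (Equiv.swap (Fin.castSucc i) (Fin.succ i)) := by
            ext1 j
            simp only [Fin.tail, Function.comp]
            congr 1
            rw [← Fin.succ_castSucc]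
            rcases eq_or_ne j (Fin.castSucc i) with rfl | h1
            · rw [Equiv.swap_apply_left, Equiv.swap_apply_left]
            rcases eq_or_ne j (Fin.succ i) with rfl | h2
            · rw [Equiv.swap_apply_right, Equiv.swap_apply_right]
            rw [Equiv.swap_apply_of_ne_of_ne h1 h2, Equiv.swap_apply_of_ne_of_ne]
            · intro h; exact h1 (Fin.succ_injective _ h)
            · intro h; exact h2 (Fin.succ_injective _ h)
          rw [iter_succ hg, iter_succ hg (v := v), e0, e1]
          congr 2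
          ext y
          exact ih g hg y _ _

/-- derivatives only see finite-dimensional germs -/
theorem iter_congr {g₁ g₂ : X → ℝ} (h1 : ContDiff ℝ ∞ g₁) (h2 : ContDiff ℝ ∞ g₂) (z : X) (k : ℕ) (v : Fin k → X)
    (h : ∀ᶠ s : Fin k → ℝ in 𝓝 0, g₁ (z + ∑ i, s i • v i) = g₂ (z + ∑ i, s i • v i)) :
    iteratedFDeriv ℝ k g₁ z v = iteratedFDeriv ℝ k g₂ z v := by
  classical
  let L : (Fin k → ℝ) →L[ℝ] X := ∑ i, (ContinuousLinearMap.proj (R := ℝ) (φ := fun _ : Fin k => ℝ) i).smulRight (v i)
  have hL : ∀ s, L s = ∑ i, s i • v i := by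
    intro s
    simp [L]
  have key : ∀ g : X → ℝ, ContDiff ℝ ∞ g → iteratedFDeriv ℝ k g z v =
      iteratedFDeriv ℝ k (fun s => g (z + L s)) 0 (fun i => Pi.single i 1) := by
    intro g hg
    have hg' : ContDiff ℝ ∞ (fun w => g (z + w)) := hg.comp (contDiff_const.add contDiff_id)
    have e1 := L.iteratedFDeriv_comp_right (f := fun w => g (z + w)) hg' 0 (i := k) (by
      exact_mod_cast le_top)
    have e2 : ((fun w => g (z + w)) ∘ L) = fun s => g (z + L s) := rfl
    rw [e2] at e1
    rw [e1, map_zero, iteratedFDeriv_comp_add_left, add_zero, ContinuousMultilinearMap.compContinuousLinearMap_apply]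
    congr 1
    ext1 i
    rw [hL]
    rw [Finset.sum_eq_single i]
    · simp
    · intro j _ hj
      rw [Pi.single_apply, if_neg hj, zero_smul]
    · intro h; exact absurd (Finset.mem_univ _) h
  rw [key g₁ h1, key g₂ h2]
  have he : (fun s => g₁ (z + L s)) =ᶠ[𝓝 0] (fun s => g₂ (z + L s)) := by
    filter_upwards [h] with s hs
    rw [hL]; exact hs
  rw [(he.iteratedFDeriv (𝕜 := ℝ) k).eq_of_nhds]

/-- limit of difference quotients of the iterated derivative -/
theorem iter_limit {g : X → ℝ} (hg : ContDiff ℝ ∞ g) (k : ℕ) (x u : X) (w : Fin k → X) :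
    Tendsto (fun t : ℝ => (iteratedFDeriv ℝ k g (x + t • u) w - iteratedFDeriv ℝ k g x w) / t) (𝓝[≠] 0)
      (𝓝 (iteratedFDeriv ℝ (k + 1) g x (Fin.cons u w))) := by
  have h1 : HasFDerivAt (fun y => iteratedFDeriv ℝ k g y w) (fderiv ℝ (fun y => iteratedFDeriv ℝ k g y w) x) x :=
    ((contDiff_iter_apply hg k w).differentiable (by simp)).differentiableAt.hasFDerivAt
  have h2 : HasDerivAt (fun t : ℝ => x + t • u) u 0 := by
    have := ((hasDerivAt_id (0:ℝ)).smul_const u).const_add x
    simpa using this
  have h1' : HasFDerivAt (fun y => iteratedFDeriv ℝ k g y w) (fderiv ℝ (fun y => iteratedFDeriv ℝ k g y w) x) (x + (0:ℝ) • u) := by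
    rw [zero_smul, add_zero]; exact h1
  have h3 := h1'.comp_hasDerivAt (0:ℝ) h2
  rw [hasDerivAt_iff_tendsto_slope_zero] at h3
  rw [iter_succ hg, Fin.cons_zero, Fin.tail_cons]
  refine h3.congr fun t => ?_
  simp only [Function.comp, zero_add, zero_smul, add_zero, smul_eq_mul]
  rw [div_eq_inv_mul]

/-- the multilinear forms of a function with finite-dimensional germs `G` -/
theorem wild_limit {f : X → ℝ} {G : X → X → ℝ} (hG : ∀ x, ContDiff ℝ ∞ (G x))
    (hf : ∀ x, ∀ (n : ℕ) (v : Fin n → X), ∀ᶠ s : Fin n → ℝ in 𝓝 0, f (x + ∑ i, s i • v i) = G x (x + ∑ i, s i • v i))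
    (k : ℕ) (x : X) (h : Fin (k + 1) → X) :
    Tendsto (fun t : ℝ => (iteratedFDeriv ℝ k (G (x + t • h (Fin.last k))) (x + t • h (Fin.last k)) (Fin.init h) -
      iteratedFDeriv ℝ k (G x) x (Fin.init h)) / t) (𝓝[≠] 0) (𝓝 (iteratedFDeriv ℝ (k + 1) (G x) x h)) := by
  set u := h (Fin.last k) with hu
  set w := Fin.init h with hw
  have hlim := iter_limit (hG x) k x u w
  have hval : iteratedFDeriv ℝ (k + 1) (G x) x (Fin.cons u w) = iteratedFDeriv ℝ (k + 1) (G x) x h := by
    have h1 : h = (Fin.cons u w : Fin (k + 1) → X) ∘ (finRotate (k + 1)) := by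
      have h2 : h = Fin.snoc (α := fun _ => X) w u := (Fin.snoc_init_self (α := fun _ => X) h).symm
      rw [h2, Fin.snoc_eq_cons_rotate]
      rfl
    conv_rhs => rw [h1]
    rw [iter_symm (k + 1) (G x) (hG x)]
  rw [hval] at hlim
  refine hlim.congr' ?_
  have hev : ∀ᶠ t : ℝ in 𝓝 0, iteratedFDeriv ℝ k (G (x + t • u)) (x + t • u) w = iteratedFDeriv ℝ k (G x) (x + t • u) w := by
    have h1 := eventually_eventually_nhds.2 (hf x (k + 1) (Fin.cons u w))
    have hc : Tendsto (fun t : ℝ => (Fin.cons t (fun _ => 0) : Fin (k + 1) → ℝ)) (𝓝 0) (𝓝 0) := by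
      have hcont : Continuous (fun t : ℝ => (Fin.cons t (fun _ => 0) : Fin (k + 1) → ℝ)) := by
        refine continuous_pi fun i => ?_
        refine Fin.cases ?_ (fun i => ?_) i
        · simpa using continuous_id'
        · simpa using continuous_const
      have := hcont.tendsto 0
      have h0 : (Fin.cons (0:ℝ) (fun _ => 0) : Fin (k + 1) → ℝ) = 0 := by
        ext1 i
        refine Fin.cases rfl (fun i => rfl) i
      rw [h0] at this
      exact this
    filter_upwards [hc.eventually h1] with t ht
    refine iter_congr (hG _) (hG _) _ k w ?_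
    have hr : Tendsto (fun r : Fin k → ℝ => (Fin.cons t r : Fin (k + 1) → ℝ)) (𝓝 0) (𝓝 (Fin.cons t (fun _ => 0))) := by
      have hcont : Continuous (fun r : Fin k → ℝ => (Fin.cons t r : Fin (k + 1) → ℝ)) := by
        refine continuous_pi fun i => ?_
        refine Fin.cases ?_ (fun i => ?_) i
        · simpa using continuous_const
        · simpa using continuous_apply i
      exact hcont.tendsto 0
    filter_upwards [hr.eventually ht, hf (x + t • u) k w] with r e1 e2
    rw [← e2]
    have e3 : x + ∑ i, (Fin.cons t r : Fin (k + 1) → ℝ) i • (Fin.cons u w : Fin (k + 1) → X) i = x + t • u + ∑ i, r i • w i := by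
      rw [Fin.sum_univ_succ]
      simp only [Fin.cons_zero, Fin.cons_succ]
      rw [add_assoc]
    rw [e3] at e1
    exact e1
  filter_upwards [hev.filter_mono nhdsWithin_le_nhds] with t ht
  rw [ht]

end H312Gat
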